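import Pool.Agent.helper26.KP.ProbW
import Pool.Agent.EGT.Defs

set_option autoImplicit false
set_option linter.unusedSectionVars false

namespace Pool.Agent.H26.KP

open Finset

theorem bMain : Pool.Agent.EGT.BMain := by
  classical
  refine ⟨5, fun r hr I hI => ?_⟩
  have : Fact (Nat.Prime 2) := ⟨Nat.prime_two⟩
  set F := GaloisField 2 r with hFdef
  let _ : Fintype F := Fintype.ofFinite F
  have hcard : Fintype.card F = 2 ^ r := by
    rw [← Nat.card_eq_fintype_card]
    exact GaloisField.card 2 r (by omega)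
  set A := r - 4 with hAdef
  have hA : 1 ≤ A := by omega
  have hq : Fintype.card F = 16 * 2 ^ A := by
    rw [hcard, show r = 4 + A by omega, pow_add]; norm_num
  have h2A : 1 ≤ 2 ^ A := Nat.one_le_two_pow
  have hF2 : 2 ≤ Fintype.card F := by omega
  have hex : ∀ i : Fin A, ∃ S : Finset F, S.card = 2 ^ (i : ℕ) := by
    intro i
    have h1 : 2 ^ (i : ℕ) ≤ (univ : Finset F).card := by
      rw [Finset.card_univ, hq]
      have : 2 ^ (i : ℕ) ≤ 2 ^ A := Nat.pow_le_pow_right (by norm_num) i.2.le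
      omega
    obtain ⟨S, _, hS⟩ := Finset.exists_subset_card_eq h1
    exact ⟨S, hS⟩
  choose Sh hSh using hex
  have e : F ≃ Fin (2 ^ r) := Fintype.equivFinOfCardEq hcard
  have c0 : Fin I := ⟨0, by omega⟩
  refine ⟨Kil F A I, (Fin A → Gam F) × Enb F A I, inferInstance, inferInstance, ?_,
    HG F A I, fun o g => ∃ h, RoleAt o.1 o.2 h g, fun o => (nbv Sh o.1).map e.toEmbedding,
    fun g => (nbv Sh (vv g)).map e.toEmbedding, ?_, ?_, ?_⟩
  · exact ⟨(fun _ => (1, 0), fun _ => pth (fun _ => (1, 0)) (fun _ => false) c0)⟩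
  · rw [Fintype.card_prod, Fintype.card_fun, Fintype.card_prod, card_Gam, Fintype.card_bool,
      Fintype.card_fin, Fintype.card_fin, hcard, mul_pow]
    rfl
  · -- the cap
    intro o K hK hind
    have h1 := cap hSh K hK hind
    have h2 := card_nbv_le hSh o.1
    have h3 : (univ : Finset (Fin (2 ^ r))) ⊆
        (univ.filter (fun x : Fin (2 ^ r) => x ∉ (nbv Sh o.1).map e.toEmbedding ∧
          ∀ g ∈ K, x ∉ (nbv Sh (vv g)).map e.toEmbedding)) ∪
        ((nbv Sh o.1).map e.toEmbedding ∪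
          (K.biUnion (fun g => nbv Sh (vv g) \ nbv Sh o.1)).map e.toEmbedding) := by
      intro x _
      by_cases hx : x ∉ (nbv Sh o.1).map e.toEmbedding ∧
          ∀ g ∈ K, x ∉ (nbv Sh (vv g)).map e.toEmbedding
      · exact Finset.mem_union_left _ (Finset.mem_filter.2 ⟨Finset.mem_univ _, hx⟩)
      · refine Finset.mem_union_right _ ?_
        by_cases hx1 : x ∈ (nbv Sh o.1).map e.toEmbedding
        · exact Finset.mem_union_left _ hx1
        · refine Finset.mem_union_right _ ?_
          have hx2 : ∃ g ∈ K, x ∈ (nbv Sh (vv g)).map e.toEmbedding := by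
            by_contra hcon
            push Not at hcon
            exact hx ⟨hx1, hcon⟩
          obtain ⟨g, hg, hgx⟩ := hx2
          obtain ⟨y, hy, rfl⟩ := Finset.mem_map.1 hgx
          rw [Finset.mem_map]
          refine ⟨y, ?_, rfl⟩
          rw [Finset.mem_biUnion]
          refine ⟨g, hg, Finset.mem_sdiff.2 ⟨hy, ?_⟩⟩
          intro hcon
          exact hx1 (Finset.mem_map_of_mem _ hcon)
    have h4 := Finset.card_le_card h3
    have h5 := Finset.card_union_le (univ.filter (fun x : Fin (2 ^ r) =>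
      x ∉ (nbv Sh o.1).map e.toEmbedding ∧ ∀ g ∈ K, x ∉ (nbv Sh (vv g)).map e.toEmbedding))
        ((nbv Sh o.1).map e.toEmbedding ∪
          (K.biUnion (fun g => nbv Sh (vv g) \ nbv Sh o.1)).map e.toEmbedding)
    have h6 := Finset.card_union_le ((nbv Sh o.1).map e.toEmbedding)
          ((K.biUnion (fun g => nbv Sh (vv g) \ nbv Sh o.1)).map e.toEmbedding)
    rw [Finset.card_map, Finset.card_map] at h6
    rw [Finset.card_univ, Fintype.card_fin] at h4
    have h7 : 2 ^ r = 16 * 2 ^ A := by rw [← hcard, hq]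
    have key : 3 * 2 ^ r ≤ 4 * (univ.filter (fun x : Fin (2 ^ r) =>
        x ∉ (nbv Sh o.1).map e.toEmbedding ∧
        ∀ g ∈ K, x ∉ (nbv Sh (vv g)).map e.toEmbedding)).card := by omega
    convert key
  · intro T hT
    have hgood : ∀ o : (Fin A → Gam F) × Enb F A I, GoodW T o.1 c0 → GoodE Sh T o.1 c0 o.2 →
        ∀ D : Finset (Fin (2 ^ r)), D.card * 2 ^ 7 ≤ 2 ^ r →
        ∃ J : Finset (Kil F A I), (∀ g ∈ J, (∃ h, RoleAt o.1 o.2 h g) ∧ g ∉ T) ∧
          (∀ g ∈ J, ∀ g' ∈ J, ¬ (HG F A I).Adj g g') ∧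
          (∀ x ∈ D, x ∉ (nbv Sh o.1).map e.toEmbedding →
            ∃ g ∈ J, x ∈ (nbv Sh (vv g)).map e.toEmbedding) ∧
          (∀ g ∈ T, (∃ h, RoleAt o.1 o.2 h g) → ∃ g' ∈ J, (HG F A I).Adj g g') := by
      intro o hW hE D hD
      have hG := good_of hSh hq hA hW hE
      obtain ⟨J, j1, j2, j3, j4, j5⟩ := hG (D.map e.symm.toEmbedding) (by
        rw [Finset.card_map, hcard]; omega)
      refine ⟨J, fun g hg => ⟨j1 g hg, j2 g hg⟩, j3, ?_, ?_⟩
      · intro x hx hxn
        obtain ⟨g, hg, hgx⟩ := j4 (e.symm x) (Finset.mem_map_of_mem _ hx) (by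
          intro hcon
          apply hxn
          rw [Finset.mem_map]
          exact ⟨e.symm x, hcon, e.apply_symm_apply x⟩)
        refine ⟨g, hg, ?_⟩
        rw [Finset.mem_map]
        exact ⟨e.symm x, hgx, e.apply_symm_apply x⟩
      · intro g hg hr
        exact j5 g hr (fun hcon => j2 g hcon hg)
    have hbad : EGT.pr (fun o : (Fin A → Gam F) × Enb F A I =>
        ¬ (GoodW T o.1 c0 ∧ GoodE Sh T o.1 c0 o.2)) ≤ 3 / 8 := by
      have h1 : EGT.pr (fun o : (Fin A → Gam F) × Enb F A I =>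
          ¬ (GoodW T o.1 c0 ∧ GoodE Sh T o.1 c0 o.2)) ≤
          EGT.pr (fun o : (Fin A → Gam F) × Enb F A I =>
            ¬ GoodW T o.1 c0 ∨ ¬ GoodE Sh T o.1 c0 o.2) := by
        refine EGT.pr_mono fun o ho => ?_
        by_contra hcon
        push Not at hcon
        exact ho hcon
      refine h1.trans ((EGT.pr_or _ _).trans ?_)
      have hN1 : Nonempty (Enb F A I) := ⟨fun _ => pth (fun _ => (1, 0)) (fun _ => false) c0⟩
      have h2 : EGT.pr (fun o : (Fin A → Gam F) × Enb F A I => ¬ GoodW T o.1 c0) ≤ 1 / 8 := by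
        rw [EGT.pr_prod]
        have : (fun a : Fin A → Gam F => EGT.pr (fun _b : Enb F A I => ¬ GoodW T a c0)) =
            fun a => EGT.ind (¬ GoodW T a c0) := by
          funext a
          exact EGT.ex_const _
        rw [this]
        exact bad_w T c0 hT
      have h3 : EGT.pr (fun o : (Fin A → Gam F) × Enb F A I => ¬ GoodE Sh T o.1 c0 o.2) ≤ 1 / 4 := by
        refine EGT.pr_prod_le _ (by norm_num) fun a => ?_
        exact (bad_e hSh hF2 T a c0).trans (num_e hq hA)
      linarith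
    have hN : Nonempty ((Fin A → Gam F) × Enb F A I) :=
      ⟨(fun _ => (1, 0), fun _ => pth (fun _ => (1, 0)) (fun _ => false) c0)⟩
    have h4 : 5 / 8 ≤ EGT.pr (fun o : (Fin A → Gam F) × Enb F A I =>
        (GoodW T o.1 c0 ∧ GoodE Sh T o.1 c0 o.2)) := by
      rw [EGT.pr_not] at hbad
      linarith
    refine h4.trans (EGT.pr_mono fun o ho => ?_)
    exact hgood o ho.1 ho.2

end Pool.Agent.H26.KP
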