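import Mathlib

set_option autoImplicit false
set_option linter.unusedSectionVars false

namespace Pool.Agent.H26.KP

open Finset

/-- affine data `(α, β)` with `α` a unit. -/
abbrev Gam (F : Type) [Field F] := Fˣ × F

variable {F : Type} [Field F] [Fintype F] [DecidableEq F]

/-- the block: image of `S` under the affine map `x ↦ α x + β` -/
def blk (S : Finset F) (γ : Gam F) : Finset F :=
  S.image (fun t : F => (γ.1 : F) * t + γ.2)

theorem mem_blk {S : Finset F} {γ : Gam F} {s : F} :
    s ∈ blk S γ ↔ ∃ t ∈ S, (γ.1 : F) * t + γ.2 = s := by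
  simp [blk]

theorem card_blk (S : Finset F) (γ : Gam F) : (blk S γ).card = S.card := by
  unfold blk
  rw [Finset.card_image_of_injective]
  intro t t' h
  have h1 : (γ.1 : F) * t = (γ.1 : F) * t' := by simpa using h
  exact (Units.mul_right_inj γ.1).1 h1

theorem card_Gam : Fintype.card (Gam F) = Fintype.card F * (Fintype.card F - 1) := by
  rw [Fintype.card_prod, Fintype.card_units, mul_comm]

/-- number of blocks through a point -/
theorem card_inc (S : Finset F) (s : F) :
    (Finset.univ.filter (fun γ : Gam F => s ∈ blk S γ)).card = S.card * (Fintype.card F - 1) := by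
  classical
  have h : (Finset.univ.filter (fun γ : Gam F => s ∈ blk S γ)) =
      (S ×ˢ (Finset.univ : Finset Fˣ)).image
        (fun q : F × Fˣ => ((q.2, s - (q.2 : F) * q.1) : Gam F)) := by
    ext γ
    simp only [Finset.mem_filter, Finset.mem_univ, true_and, mem_blk, Finset.mem_image,
      Finset.mem_product, and_true]
    constructor
    · rintro ⟨t, ht, h⟩
      refine ⟨(t, γ.1), ht, ?_⟩
      ext
      · rfl
      · simp only
        rw [← h]; ring
    · rintro ⟨⟨t, u⟩, ht, rfl⟩
      exact ⟨t, ht, by simp⟩
  rw [h, Finset.card_image_of_injective]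
  · rw [Finset.card_product, Finset.card_univ, Fintype.card_units]
  · rintro ⟨t, u⟩ ⟨t', u'⟩ heq
    simp only [Prod.mk.injEq] at heq
    obtain ⟨rfl, h2⟩ := heq
    have h3 : (u : F) * t = (u : F) * t' := by
      have := sub_right_injective h2
      simpa using this
    rw [(Units.mul_right_inj u).1 h3]

/-- number of blocks through two points -/
theorem card_inc2 (S : Finset F) {s s' : F} (hss : s ≠ s') :
    (Finset.univ.filter (fun γ : Gam F => s ∈ blk S γ ∧ s' ∈ blk S γ)).card =
      S.card * (S.card - 1) := by
  classical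
  have hss' : s - s' ≠ 0 := sub_ne_zero.2 hss
  have h : (Finset.univ.filter (fun γ : Gam F => s ∈ blk S γ ∧ s' ∈ blk S γ)).card =
      (S.offDiag).card := by
    refine (Finset.card_bij'
      (s := S.offDiag)
      (t := (Finset.univ.filter (fun γ : Gam F => s ∈ blk S γ ∧ s' ∈ blk S γ)))
      (fun q hq => ((Units.mk0 ((s - s') / (q.1 - q.2)) (by
          simp only [Finset.mem_offDiag] at hq
          exact div_ne_zero (sub_ne_zero.2 hss) (sub_ne_zero.2 hq.2.2)),
          s - ((s - s') / (q.1 - q.2)) * q.1) : Gam F))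
      (fun γ _ => ((s - γ.2) / (γ.1 : F), (s' - γ.2) / (γ.1 : F)))
      ?_ ?_ ?_ ?_).symm
    · rintro ⟨t, t'⟩ hq
      simp only [Finset.mem_offDiag] at hq
      have hne : t - t' ≠ 0 := sub_ne_zero.2 hq.2.2
      simp only [Finset.mem_filter, Finset.mem_univ, true_and, mem_blk, Units.val_mk0]
      refine ⟨⟨t, hq.1, by ring⟩, ⟨t', hq.2.1, ?_⟩⟩
      field_simp
      ring
    · intro γ hγ
      simp only [Finset.mem_filter, Finset.mem_univ, true_and, mem_blk] at hγ
      obtain ⟨⟨t, ht, h1⟩, ⟨t', ht', h2⟩⟩ := hγ
      have hu : (γ.1 : F) ≠ 0 := Units.ne_zero γ.1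
      have e1 : (s - γ.2) / (γ.1 : F) = t := by
        rw [← h1]; field_simp; ring
      have e2 : (s' - γ.2) / (γ.1 : F) = t' := by
        rw [← h2]; field_simp; ring
      simp only [e1, e2, Finset.mem_offDiag]
      refine ⟨ht, ht', ?_⟩
      rintro rfl
      exact hss (h1.symm.trans h2)
    · rintro ⟨t, t'⟩ hq
      simp only [Finset.mem_offDiag] at hq
      have hne : t - t' ≠ 0 := sub_ne_zero.2 hq.2.2
      simp only [Units.val_mk0]
      have e1 : (s - (s - (s - s') / (t - t') * t)) / ((s - s') / (t - t')) = t := by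
        field_simp
        ring
      have e2 : (s' - (s - (s - s') / (t - t') * t)) / ((s - s') / (t - t')) = t' := by
        field_simp
        ring
      rw [e1, e2]
    · intro γ hγ
      have hu : (γ.1 : F) ≠ 0 := Units.ne_zero γ.1
      have e3 : (s - s') / ((s - γ.2) / (γ.1 : F) - (s' - γ.2) / (γ.1 : F)) = (γ.1 : F) := by
        rw [← sub_div]
        have : (s - γ.2 - (s' - γ.2)) = s - s' := by ring
        rw [this]
        field_simp
      ext
      · simp only [Units.val_mk0]
        exact e3
      · simp only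
        rw [e3]
        field_simp
        ring
  rw [h, Finset.offDiag_card, Nat.mul_sub, mul_one]

end Pool.Agent.H26.KP
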