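import Pool.Agent.helper26.KP.Design

set_option autoImplicit false
set_option linter.unusedSectionVars false

namespace Pool.Agent.H26.KP

open Finset

variable {F : Type} [Field F] [Fintype F] [DecidableEq F]

/-- the sum of `f` over the blocks of shape `S` through `s` -/
noncomputable def thru (S : Finset F) (f : Gam F → ℝ) (s : F) : ℝ :=
  ∑ γ ∈ univ.filter (fun γ : Gam F => s ∈ blk S γ), f γ

theorem thru_eq (S : Finset F) (f : Gam F → ℝ) (s : F) :
    thru S f s = ∑ γ, if s ∈ blk S γ then f γ else 0 := by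
  unfold thru
  rw [Finset.sum_filter]

theorem sum_mul_thru (S : Finset F) (f : Gam F → ℝ) (g : F → ℝ) :
    ∑ s, g s * thru S f s = ∑ γ, f γ * ∑ s ∈ blk S γ, g s := by
  simp_rw [thru_eq, Finset.mul_sum]
  rw [Finset.sum_comm]
  refine Finset.sum_congr rfl fun γ _ => ?_
  rw [← Finset.sum_filter_add_sum_filter_not univ (fun s => s ∈ blk S γ)]
  have h2 : ∑ s ∈ univ.filter (fun s => ¬ s ∈ blk S γ), g s * (if s ∈ blk S γ then f γ else 0) = 0 := by
    refine Finset.sum_eq_zero fun s hs => ?_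
    rw [Finset.mem_filter] at hs
    simp [hs.2]
  rw [h2, add_zero]
  have h3 : univ.filter (fun s => s ∈ blk S γ) = blk S γ := by
    ext s; simp
  rw [h3]
  refine Finset.sum_congr rfl fun s hs => ?_
  rw [if_pos hs, mul_comm]

theorem sum_thru (S : Finset F) (f : Gam F → ℝ) :
    ∑ s, thru S f s = S.card * ∑ γ, f γ := by
  have h := sum_mul_thru S f (fun _ => (1 : ℝ))
  simp only [one_mul, Finset.sum_const, nsmul_eq_mul, mul_one] at h
  rw [h, Finset.mul_sum]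
  refine Finset.sum_congr rfl fun γ _ => ?_
  rw [card_blk]; ring

theorem sum_blk_sq (S : Finset F) (hS : 1 ≤ S.card) (g : F → ℝ) (hg : ∑ s, g s = 0) :
    ∑ γ : Gam F, (∑ s ∈ blk S γ, g s) ^ 2 ≤
      (S.card * (Fintype.card F - 1) : ℝ) * ∑ s, g s ^ 2 := by
  classical
  have h1 : ∀ γ : Gam F, (∑ s ∈ blk S γ, g s) ^ 2 =
      ∑ s, ∑ s', (if s ∈ blk S γ ∧ s' ∈ blk S γ then g s * g s' else 0) := by
    intro γ
    have e : ∑ s ∈ blk S γ, g s = ∑ s, if s ∈ blk S γ then g s else 0 := by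
      rw [← Finset.sum_filter]
      congr 1
      ext s; simp
    rw [sq, e, Finset.sum_mul_sum]
    refine Finset.sum_congr rfl fun s _ => Finset.sum_congr rfl fun s' _ => ?_
    by_cases a : s ∈ blk S γ <;> by_cases b : s' ∈ blk S γ <;> simp [a, b]
  simp_rw [h1]
  rw [Finset.sum_comm]
  have h2 : ∀ s : F, ∑ γ : Gam F, ∑ s', (if s ∈ blk S γ ∧ s' ∈ blk S γ then g s * g s' else 0) =
      ∑ s', g s * g s' * ((univ.filter (fun γ : Gam F => s ∈ blk S γ ∧ s' ∈ blk S γ)).card : ℝ) := by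
    intro s
    rw [Finset.sum_comm]
    refine Finset.sum_congr rfl fun s' _ => ?_
    rw [← Finset.sum_filter, Finset.sum_const, nsmul_eq_mul, mul_comm]
  simp_rw [h2]
  have h3 : ∀ s : F, ∑ s', g s * g s' * ((univ.filter (fun γ : Gam F => s ∈ blk S γ ∧ s' ∈ blk S γ)).card : ℝ)
      = g s ^ 2 * ((S.card * (Fintype.card F - 1) : ℕ) - (S.card * (S.card - 1) : ℕ) : ℝ) +
        g s * (S.card * (S.card - 1) : ℕ) * ∑ s', g s' := by
    intro s
    rw [← Finset.add_sum_erase univ _ (Finset.mem_univ s)]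
    have e1 : (univ.filter (fun γ : Gam F => s ∈ blk S γ ∧ s ∈ blk S γ)).card =
        S.card * (Fintype.card F - 1) := by
      have := card_inc S s
      simpa using this
    rw [e1]
    have e2 : ∑ s' ∈ univ.erase s, g s * g s' * ((univ.filter (fun γ : Gam F => s ∈ blk S γ ∧ s' ∈ blk S γ)).card : ℝ)
        = ∑ s' ∈ univ.erase s, g s * g s' * (S.card * (S.card - 1) : ℕ) := by
      refine Finset.sum_congr rfl fun s' hs' => ?_
      rw [card_inc2 S (Finset.ne_of_mem_erase hs').symm]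
    rw [e2]
    have e3 : ∑ s' ∈ univ.erase s, g s * g s' * ((S.card * (S.card - 1) : ℕ) : ℝ) =
        g s * ((S.card * (S.card - 1) : ℕ) : ℝ) * (∑ s', g s' - g s) := by
      rw [← Finset.add_sum_erase univ g (Finset.mem_univ s), add_sub_cancel_left, Finset.mul_sum]
      refine Finset.sum_congr rfl fun s' _ => ?_
      ring
    rw [e3]
    ring
  simp_rw [h3, hg, mul_zero, add_zero]
  rw [← Finset.sum_mul, mul_comm]
  refine mul_le_mul_of_nonneg_right ?_ (Finset.sum_nonneg fun s _ => sq_nonneg _)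
  have hp1 : 1 ≤ Fintype.card F := Fintype.card_pos
  have hc1 : ((S.card * (Fintype.card F - 1) : ℕ) : ℝ) =
      (S.card : ℝ) * ((Fintype.card F : ℝ) - 1) := by
    push_cast [Nat.cast_sub hp1]; ring
  have hc2 : ((S.card * (S.card - 1) : ℕ) : ℝ) = (S.card : ℝ) * ((S.card : ℝ) - 1) := by
    push_cast [Nat.cast_sub hS]; ring
  rw [hc1, hc2]
  have hm1' : (1 : ℝ) ≤ S.card := by exact_mod_cast hS
  have : (0 : ℝ) ≤ (S.card : ℝ) * (S.card - 1) := mul_nonneg (by linarith) (by linarith)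
  nlinarith

theorem thru_sq_le (S : Finset F) (hS : 1 ≤ S.card) (f : Gam F → ℝ) (hf : ∑ γ, f γ = 0) :
    ∑ s, (thru S f s) ^ 2 ≤ (S.card * (Fintype.card F - 1) : ℝ) * ∑ γ, f γ ^ 2 := by
  have hp1 : (1 : ℝ) ≤ Fintype.card F := by exact_mod_cast Fintype.card_pos
  have hmp : (0 : ℝ) ≤ (S.card * (Fintype.card F - 1) : ℝ) :=
    mul_nonneg (by positivity) (by linarith)
  set g := thru S f with hg
  have hg0 : ∑ s, g s = 0 := by rw [hg, sum_thru, hf, mul_zero]
  have h1 : ∑ s, g s ^ 2 = ∑ γ, f γ * ∑ s ∈ blk S γ, g s := by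
    rw [← sum_mul_thru S f g]
    refine Finset.sum_congr rfl fun s _ => ?_
    rw [hg]; ring
  have h2 : (∑ γ, f γ * ∑ s ∈ blk S γ, g s) ^ 2 ≤
      (∑ γ, f γ ^ 2) * ∑ γ : Gam F, (∑ s ∈ blk S γ, g s) ^ 2 :=
    Finset.sum_mul_sq_le_sq_mul_sq _ _ _
  have h3 := sum_blk_sq S hS g hg0
  have h4 : (∑ s, g s ^ 2) ^ 2 ≤
      (∑ γ, f γ ^ 2) * ((S.card * (Fintype.card F - 1) : ℝ) * ∑ s, g s ^ 2) := by
    calc (∑ s, g s ^ 2) ^ 2 = (∑ γ, f γ * ∑ s ∈ blk S γ, g s) ^ 2 := by rw [h1]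
      _ ≤ _ := h2
      _ ≤ _ := mul_le_mul_of_nonneg_left h3 (Finset.sum_nonneg fun _ _ => sq_nonneg _)
  have h5 : 0 ≤ ∑ s, g s ^ 2 := Finset.sum_nonneg fun _ _ => sq_nonneg _
  rcases h5.eq_or_lt with h6 | h6
  · rw [← h6]
    exact mul_nonneg hmp (Finset.sum_nonneg fun _ _ => sq_nonneg _)
  · have : (∑ s, g s ^ 2) * (∑ s, g s ^ 2) ≤
        ((S.card * (Fintype.card F - 1) : ℝ) * ∑ γ, f γ ^ 2) * (∑ s, g s ^ 2) := by
      calc (∑ s, g s ^ 2) * (∑ s, g s ^ 2) = (∑ s, g s ^ 2) ^ 2 := by ring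
        _ ≤ _ := h4
        _ = _ := by ring
    exact le_of_mul_le_mul_right this h6

/-- The design lemma.  If `φ` has mean `μ`, the points `s` for which the average of `φ` over the
blocks through `s` exceeds `μ + 1/4` number at most `16 (q/m) Var φ`. -/
theorem design (S : Finset F) (hS : 1 ≤ S.card) (hF : 2 ≤ Fintype.card F)
    (φ : Gam F → ℝ) (μ : ℝ)
    (hμ : ∑ γ, φ γ = (Fintype.card (Gam F)) * μ) (B : Finset F)
    (hB : ∀ s ∈ B, (S.card * (Fintype.card F - 1) : ℝ) * (μ + 1 / 4) ≤ thru S φ s) :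
    (B.card : ℝ) * S.card * Fintype.card (Gam F) ≤
      16 * Fintype.card F * ∑ γ, (φ γ - μ) ^ 2 := by
  set q := Fintype.card F with hq
  set m := S.card with hm
  have hp1 : 1 < q := by omega
  have hp1' : (1 : ℝ) < q := by exact_mod_cast hp1
  have hcard : (Fintype.card (Gam F) : ℝ) = q * ((q : ℝ) - 1) := by
    rw [card_Gam, ← hq]; push_cast [Nat.cast_sub hp1.le]; ring
  set f : Gam F → ℝ := fun γ => φ γ - μ with hf
  have hf0 : ∑ γ, f γ = 0 := by
    rw [hf, Finset.sum_sub_distrib, hμ, Finset.sum_const, Finset.card_univ, nsmul_eq_mul]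
    ring
  have hth : ∀ s, thru S f s = thru S φ s - (m * (q - 1) : ℝ) * μ := by
    intro s
    unfold thru
    rw [hf, Finset.sum_sub_distrib, Finset.sum_const, nsmul_eq_mul, card_inc, ← hq, ← hm]
    push_cast [Nat.cast_sub hp1.le]; ring
  have hm0 : (0 : ℝ) < m := by exact_mod_cast hS
  have h1 := thru_sq_le S hS f hf0
  have h2 : (B.card : ℝ) * ((m * (q - 1) : ℝ) / 4) ^ 2 ≤ ∑ s, (thru S f s) ^ 2 := by
    calc (B.card : ℝ) * ((m * (q - 1) : ℝ) / 4) ^ 2 = ∑ s ∈ B, ((m * (q - 1) : ℝ) / 4) ^ 2 := by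
          rw [Finset.sum_const, nsmul_eq_mul]
      _ ≤ ∑ s ∈ B, (thru S f s) ^ 2 := by
          refine Finset.sum_le_sum fun s hs => ?_
          have := hB s hs
          rw [hth]
          have h0 : (0 : ℝ) ≤ (m * (q - 1) : ℝ) / 4 := by
            have : (0 : ℝ) ≤ (m * (q - 1) : ℝ) := mul_nonneg hm0.le (by linarith)
            linarith
          refine pow_le_pow_left₀ h0 ?_ 2
          linarith
      _ ≤ _ := Finset.sum_le_univ_sum_of_nonneg fun s => sq_nonneg _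
  have h3 : (B.card : ℝ) * ((m * (q - 1) : ℝ) / 4) ^ 2 ≤ (m * (q - 1) : ℝ) * ∑ γ, f γ ^ 2 :=
    h2.trans h1
  rw [hcard]
  have hb : 0 ≤ ∑ γ, f γ ^ 2 := Finset.sum_nonneg fun _ _ => sq_nonneg _
  -- divide by m (p-1) /16
  have h4 : ((B.card : ℝ) * m * (q * ((q : ℝ) - 1))) * (m * (q - 1)) ≤
      (16 * q * ∑ γ, f γ ^ 2) * (m * (q - 1)) := by
    have e1 : ((B.card : ℝ) * m * (q * ((q : ℝ) - 1))) * (m * (q - 1)) =
        16 * q * ((B.card : ℝ) * ((m * (q - 1) : ℝ) / 4) ^ 2) := by ring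
    rw [e1]
    have h5 : 16 * (q : ℝ) * ((B.card : ℝ) * ((m * (q - 1) : ℝ) / 4) ^ 2) ≤
        16 * q * ((m * (q - 1) : ℝ) * ∑ γ, f γ ^ 2) :=
      mul_le_mul_of_nonneg_left h3 (by positivity)
    refine h5.trans (le_of_eq ?_)
    ring
  exact le_of_mul_le_mul_right h4 (mul_pos hm0 (by linarith))

end Pool.Agent.H26.KP
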