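import Pool.Agent.helper26.KP.Mart

set_option autoImplicit false
set_option linter.unusedSectionVars false

namespace Pool.Agent.H26.KP

open Finset

variable {A : ℕ} {Γ B R : Type}
variable [Fintype Γ] [Fintype B] [Fintype R] [DecidableEq Γ] [DecidableEq B]

theorem sum_upd (h : Fin A) (φ : Pth A Γ B R → ℝ) :
    ∑ x, ∑ y : Γ × B, φ (upd h y x) = (Fintype.card (Γ × B)) * ∑ x, φ x := by
  have h1 : ∑ x, ∑ y : Γ × B, φ (upd h y x) =
      ∑ q : Pth A Γ B R × (Γ × B), φ (upd h q.2 q.1) :=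
    (Fintype.sum_prod_type' (fun x y => φ (upd h y x))).symm
  have h2 : ∑ q : Pth A Γ B R × (Γ × B), φ (upd h q.2 q.1) =
      ∑ q : Pth A Γ B R × (Γ × B), φ q.1 := by
    refine Fintype.sum_bijective (fun q => (upd h q.2 q.1, q.1.1 h)) ?_ _ _ (fun q => rfl)
    refine Function.Involutive.bijective ?_
    intro q
    simp only [upd_upd, upd_self, upd_fst_same]
  rw [h1, h2, Fintype.sum_prod_type' (fun (x : Pth A Γ B R) (_y : Γ × B) => φ x)]
  simp only [Finset.sum_const, Finset.card_univ, nsmul_eq_mul]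
  rw [← Finset.mul_sum]

theorem sum_updG (h : Fin A) (φ : Pth A Γ B R → ℝ) :
    ∑ x, ∑ γ : Γ, φ (upd h (γ, (x.1 h).2) x) = (Fintype.card Γ) * ∑ x, φ x := by
  have h1 : ∑ x, ∑ γ : Γ, φ (upd h (γ, (x.1 h).2) x) =
      ∑ q : Pth A Γ B R × Γ, φ (upd h (q.2, (q.1.1 h).2) q.1) :=
    (Fintype.sum_prod_type' (fun (x : Pth A Γ B R) (γ : Γ) => φ (upd h (γ, (x.1 h).2) x))).symm
  have h2 : ∑ q : Pth A Γ B R × Γ, φ (upd h (q.2, (q.1.1 h).2) q.1) =
      ∑ q : Pth A Γ B R × Γ, φ q.1 := by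
    refine Fintype.sum_bijective (fun q => (upd h (q.2, (q.1.1 h).2) q.1, (q.1.1 h).1)) ?_ _ _
      (fun q => rfl)
    refine Function.Involutive.bijective ?_
    intro q
    simp only [upd_upd, upd_fst_same, Prod.mk.eta, upd_self]
  rw [h1, h2, Fintype.sum_prod_type' (fun (x : Pth A Γ B R) (_y : Γ) => φ x)]
  simp only [Finset.sum_const, Finset.card_univ, nsmul_eq_mul]
  rw [← Finset.mul_sum]

theorem sum_updB (h : Fin A) (φ : Pth A Γ B R → ℝ) :
    ∑ x, ∑ b : B, φ (upd h ((x.1 h).1, b) x) = (Fintype.card B) * ∑ x, φ x := by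
  have h1 : ∑ x, ∑ b : B, φ (upd h ((x.1 h).1, b) x) =
      ∑ q : Pth A Γ B R × B, φ (upd h ((q.1.1 h).1, q.2) q.1) :=
    (Fintype.sum_prod_type' (fun (x : Pth A Γ B R) (b : B) => φ (upd h ((x.1 h).1, b) x))).symm
  have h2 : ∑ q : Pth A Γ B R × B, φ (upd h ((q.1.1 h).1, q.2) q.1) =
      ∑ q : Pth A Γ B R × B, φ q.1 := by
    refine Fintype.sum_bijective (fun q => (upd h ((q.1.1 h).1, q.2) q.1, (q.1.1 h).2)) ?_ _ _
      (fun q => rfl)
    refine Function.Involutive.bijective ?_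
    intro q
    simp only [upd_upd, upd_fst_same, Prod.mk.eta, upd_self]
  rw [h1, h2, Fintype.sum_prod_type' (fun (x : Pth A Γ B R) (_y : B) => φ x)]
  simp only [Finset.sum_const, Finset.card_univ, nsmul_eq_mul]
  rw [← Finset.mul_sum]

/-- the average over the `Γ`-part of coordinate `h` as well -/
noncomputable def avg' (h : Fin A) (f : Pth A Γ B R → ℝ) (x : Pth A Γ B R) : ℝ :=
  (∑ γ : Γ, avg h f (upd h (γ, (x.1 h).2) x)) / Fintype.card Γ

theorem avg'_upd (h : Fin A) (f : Pth A Γ B R → ℝ) (x : Pth A Γ B R) (γ : Γ) (b : B) :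
    avg' h f (upd h (γ, b) x) = (∑ γ : Γ, avg h f (upd h (γ, b) x)) / Fintype.card Γ := by
  unfold avg'
  simp only [upd_fst_same, upd_upd]

theorem avg'_updG (h : Fin A) (f : Pth A Γ B R → ℝ) (x : Pth A Γ B R) (γ : Γ) :
    avg' h f (upd h (γ, (x.1 h).2) x) = avg' h f x := by
  rw [avg'_upd]; rfl

theorem avg'_nonneg (h : Fin A) {f : Pth A Γ B R → ℝ} (hf : ∀ x, 0 ≤ f x) (x : Pth A Γ B R) :
    0 ≤ avg' h f x :=
  div_nonneg (Finset.sum_nonneg fun _ _ => avg_nonneg _ hf _) (Nat.cast_nonneg _)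

theorem avg'_le_one (h : Fin A) {f : Pth A Γ B R → ℝ} (hf : ∀ x, f x ≤ 1) (x : Pth A Γ B R) :
    avg' h f x ≤ 1 := by
  unfold avg'
  have : Nonempty Γ := ⟨(x.1 h).1⟩
  have hc : (0 : ℝ) < Fintype.card Γ := by exact_mod_cast Fintype.card_pos
  rw [div_le_one hc]
  calc ∑ γ : Γ, avg h f (upd h (γ, (x.1 h).2) x) ≤ ∑ _g : Γ, (1 : ℝ) :=
        Finset.sum_le_sum fun g _ => avg_le_one _ hf _
    _ = _ := by simp

/-- orthogonality -/
theorem sum_sub_sq (h : Fin A) (f : Pth A Γ B R → ℝ) :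
    ∑ x, (avg h f x - avg' h f x) ^ 2 = ∑ x, avg h f x ^ 2 - ∑ x, avg' h f x ^ 2 := by
  rcases isEmpty_or_nonempty (Pth A Γ B R) with hE | ⟨⟨x0⟩⟩
  · simp
  have : Nonempty Γ := ⟨(x0.1 h).1⟩
  have hc : (Fintype.card Γ : ℝ) ≠ 0 := by exact_mod_cast Fintype.card_ne_zero
  have h1 : (Fintype.card Γ : ℝ) * ∑ x, avg' h f x * avg h f x =
      (Fintype.card Γ : ℝ) * ∑ x, avg' h f x ^ 2 := by
    rw [← sum_updG h (fun x => avg' h f x * avg h f x), Finset.mul_sum]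
    refine Finset.sum_congr rfl fun x _ => ?_
    simp only [avg'_updG]
    rw [← Finset.mul_sum, sq]
    have : ∑ i : Γ, avg h f (upd h (i, (x.1 h).2) x) = Fintype.card Γ * avg' h f x := by
      unfold avg'
      field_simp
    rw [this]
    ring
  have h2 : ∑ x, avg' h f x * avg h f x = ∑ x, avg' h f x ^ 2 := mul_left_cancel₀ hc h1
  have h3 : ∑ x, (avg h f x - avg' h f x) ^ 2 =
      ∑ x, avg h f x ^ 2 - 2 * ∑ x, avg' h f x * avg h f x + ∑ x, avg' h f x ^ 2 := by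
    rw [Finset.mul_sum, ← Finset.sum_sub_distrib, ← Finset.sum_add_distrib]
    refine Finset.sum_congr rfl fun x _ => ?_
    ring
  rw [h3, h2]; ring

theorem avg_succ_eq (h : Fin A) (f : Pth A Γ B R → ℝ) (x : Pth A Γ B R) :
    avg ((h : ℕ) + 1) f x = (∑ y : Γ × B, avg h f (upd h y x)) / Fintype.card (Γ × B) := by
  have : Nonempty (Γ × B) := ⟨x.1 h⟩
  have hN : Nonempty (Pth A Γ B R) := ⟨x⟩
  have hc : (Fintype.card (Γ × B) : ℝ) ≠ 0 := by exact_mod_cast Fintype.card_ne_zero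
  have hc' : (Fintype.card (Pth A Γ B R) : ℝ) ≠ 0 := by exact_mod_cast Fintype.card_ne_zero
  have h1 : (Fintype.card (Γ × B) : ℝ) * ∑ g, f (mix ((h : ℕ) + 1) x g) =
      ∑ y : Γ × B, ∑ g, f (mix h (upd h y x) g) := by
    simp_rw [mix_succ]
    rw [← sum_upd h (fun g => f (mix h (upd h (g.1 h) x) g)), Finset.sum_comm]
    refine Finset.sum_congr rfl fun y _ => Finset.sum_congr rfl fun g _ => ?_
    simp only [upd_fst_same, mix_upd_right]
  unfold avg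
  rw [← Finset.sum_div, ← h1]
  field_simp

theorem avg_succ_eq' (h : Fin A) (f : Pth A Γ B R → ℝ) (x : Pth A Γ B R) :
    avg ((h : ℕ) + 1) f x =
      (∑ b : B, avg' h f (upd h ((x.1 h).1, b) x)) / Fintype.card B := by
  rw [avg_succ_eq]
  have : Nonempty Γ := ⟨(x.1 h).1⟩
  have : Nonempty B := ⟨(x.1 h).2⟩
  have hc : (Fintype.card Γ : ℝ) ≠ 0 := by exact_mod_cast Fintype.card_ne_zero
  have hc' : (Fintype.card B : ℝ) ≠ 0 := by exact_mod_cast Fintype.card_ne_zero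
  simp_rw [avg'_upd]
  rw [← Finset.sum_div, Fintype.sum_prod_type_right, Fintype.card_prod]
  push_cast
  field_simp

theorem sum_avg_succ_sq (h : Fin A) (f : Pth A Γ B R → ℝ) :
    ∑ x, avg ((h : ℕ) + 1) f x ^ 2 ≤ ∑ x, avg' h f x ^ 2 := by
  rcases isEmpty_or_nonempty (Pth A Γ B R) with hE | ⟨⟨x0⟩⟩
  · simp
  have : Nonempty B := ⟨(x0.1 h).2⟩
  have hc : (0 : ℝ) < Fintype.card B := by exact_mod_cast Fintype.card_pos
  have h1 : ∀ x : Pth A Γ B R, avg ((h : ℕ) + 1) f x ^ 2 ≤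
      (∑ b : B, avg' h f (upd h ((x.1 h).1, b) x) ^ 2) / Fintype.card B := by
    intro x
    rw [avg_succ_eq', div_pow, div_le_div_iff₀ (by positivity) hc]
    have := sq_sum_le_card_mul_sum_sq (s := (univ : Finset B))
      (f := fun b => avg' h f (upd h ((x.1 h).1, b) x))
    rw [Finset.card_univ] at this
    calc (∑ b : B, avg' h f (upd h ((x.1 h).1, b) x)) ^ 2 * (Fintype.card B : ℝ)
        ≤ ((Fintype.card B : ℝ) * ∑ b : B, avg' h f (upd h ((x.1 h).1, b) x) ^ 2) *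
          (Fintype.card B : ℝ) := mul_le_mul_of_nonneg_right this hc.le
      _ = _ := by ring
  calc ∑ x, avg ((h : ℕ) + 1) f x ^ 2
      ≤ ∑ x, (∑ b : B, avg' h f (upd h ((x.1 h).1, b) x) ^ 2) / Fintype.card B :=
        Finset.sum_le_sum fun x _ => h1 x
    _ = (∑ x, ∑ b : B, (fun x => avg' h f x ^ 2) (upd h ((x.1 h).1, b) x)) / Fintype.card B := by
        rw [Finset.sum_div]
    _ = ∑ x, avg' h f x ^ 2 := by
        rw [sum_updB h (fun x => avg' h f x ^ 2)]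
        field_simp

theorem sum_avg_zero_sq (f : Pth A Γ B R → ℝ) :
    ∑ x, avg 0 f x ^ 2 ≤ ∑ x, f x ^ 2 := by
  rcases isEmpty_or_nonempty (Pth A Γ B R) with hE | hN
  · simp
  have hc : (0 : ℝ) < Fintype.card (Pth A Γ B R) := by exact_mod_cast Fintype.card_pos
  have h1 : ∀ x : Pth A Γ B R, avg 0 f x ^ 2 ≤
      (∑ g, f (mix 0 x g) ^ 2) / Fintype.card (Pth A Γ B R) := by
    intro x
    unfold avg
    rw [div_pow, div_le_div_iff₀ (by positivity) hc]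
    have := sq_sum_le_card_mul_sum_sq (s := (univ : Finset (Pth A Γ B R)))
      (f := fun g => f (mix 0 x g))
    rw [Finset.card_univ] at this
    calc (∑ g, f (mix 0 x g)) ^ 2 * (Fintype.card (Pth A Γ B R) : ℝ)
        ≤ ((Fintype.card (Pth A Γ B R) : ℝ) * ∑ g, f (mix 0 x g) ^ 2) *
          (Fintype.card (Pth A Γ B R) : ℝ) := mul_le_mul_of_nonneg_right this hc.le
      _ = _ := by ring
  calc ∑ x, avg 0 f x ^ 2 ≤ ∑ x, (∑ g, f (mix 0 x g) ^ 2) / Fintype.card (Pth A Γ B R) :=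
        Finset.sum_le_sum fun x _ => h1 x
    _ = (∑ x, ∑ g, (fun x => f x ^ 2) (mix 0 x g)) / Fintype.card (Pth A Γ B R) := by
        rw [Finset.sum_div]
    _ = ∑ x, f x ^ 2 := by
        rw [sum_mix 0 (fun x => f x ^ 2)]
        field_simp

/-- the energy inequality -/
theorem energy (f : Pth A Γ B R → ℝ) :
    ∑ h : Fin A, ∑ x, (avg h f x - avg' h f x) ^ 2 ≤ ∑ x, f x ^ 2 := by
  have h1 : ∀ h : Fin A, ∑ x, (avg h f x - avg' h f x) ^ 2 ≤
      (∑ x, avg (h : ℕ) f x ^ 2) - ∑ x, avg ((h : ℕ) + 1) f x ^ 2 := by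
    intro h
    rw [sum_sub_sq]
    have := sum_avg_succ_sq h f
    linarith
  have h2 : ∑ h : Fin A, ((∑ x, avg (h : ℕ) f x ^ 2) - ∑ x, avg ((h : ℕ) + 1) f x ^ 2) =
      (∑ x, avg 0 f x ^ 2) - ∑ x, avg A f x ^ 2 := by
    rw [Fin.sum_univ_eq_sum_range
      (fun h => (∑ x, avg h f x ^ 2) - ∑ x, avg (h + 1) f x ^ 2) A]
    exact Finset.sum_range_sub' (fun h => ∑ x, avg h f x ^ 2) A
  calc ∑ h : Fin A, ∑ x, (avg h f x - avg' h f x) ^ 2
      ≤ ∑ h : Fin A, ((∑ x, avg (h : ℕ) f x ^ 2) - ∑ x, avg ((h : ℕ) + 1) f x ^ 2) :=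
        Finset.sum_le_sum fun h _ => h1 h
    _ = (∑ x, avg 0 f x ^ 2) - ∑ x, avg A f x ^ 2 := h2
    _ ≤ ∑ x, avg 0 f x ^ 2 := by
        have : 0 ≤ ∑ x, avg A f x ^ 2 := Finset.sum_nonneg fun _ _ => sq_nonneg _
        linarith
    _ ≤ _ := sum_avg_zero_sq f

end Pool.Agent.H26.KP
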