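import Pool.Agent.helper26.KP.Greedy
import Pool.Agent.helper26.KP.Energy
import Pool.Agent.helper26.KP.DesignL2

set_option autoImplicit false
set_option linter.unusedSectionVars false

namespace Pool.Agent.H26.KP

open Finset

variable {F : Type} [Field F] [Fintype F] [DecidableEq F] {A I : ℕ}

/-- indicator -/
noncomputable def ind (T : Finset (Kil F A I)) : Kil F A I → ℝ := fun g => if g ∈ T then 1 else 0

theorem ind_nonneg (T : Finset (Kil F A I)) (g : Kil F A I) : 0 ≤ ind T g := by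
  unfold ind; split_ifs <;> norm_num

theorem ind_le_one (T : Finset (Kil F A I)) (g : Kil F A I) : ind T g ≤ 1 := by
  unfold ind; split_ifs <;> norm_num

/-- a slot is blocked at height `h` -/
def blocked (T : Finset (Kil F A I)) (w : Fin A → Gam F) (c0 : Fin I) (h : ℕ)
    (σ : Fin A → Bool) : Prop :=
  ∃ h', h ≤ h' ∧ h' ≤ A ∧ (1 / 128 : ℝ) < avg h' (ind T) (pth w σ c0)

theorem blocked_anti {T : Finset (Kil F A I)} {w : Fin A → Gam F} {c0 : Fin I} {h k : ℕ}
    (hk : h ≤ k) {σ : Fin A → Bool} (hb : blocked T w c0 k σ) : blocked T w c0 h σ := by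
  obtain ⟨h', h1, h2, h3⟩ := hb
  exact ⟨h', hk.trans h1, h2, h3⟩

theorem avg_pth_cell (f : Kil F A I → ℝ) {h : ℕ} (w : Fin A → Gam F) (c0 : Fin I)
    {σ τ : Fin A → Bool} (hτ : τ ∈ cell h σ) : avg h f (pth w τ c0) = avg h f (pth w σ c0) := by
  unfold avg
  congr 1
  refine Finset.sum_congr rfl fun g _ => ?_
  congr 1
  refine Prod.ext (funext fun i => ?_) rfl
  rw [mix_fst, mix_fst]
  by_cases hi : h ≤ (i : ℕ)
  · simp only [hi, if_true, pth]
    rw [mem_cell.1 hτ i hi]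
  · simp [hi]

theorem avg_pth_copy (f : Kil F A I → ℝ) (h : ℕ) (w : Fin A → Gam F) (c0 c1 : Fin I)
    (σ : Fin A → Bool) : avg h f (pth w σ c0) = avg h f (pth w σ c1) := rfl

theorem blocked_cell {T : Finset (Kil F A I)} {w : Fin A → Gam F} {c0 : Fin I} {h : ℕ}
    {σ τ : Fin A → Bool} (hτ : τ ∈ cell h σ) : blocked T w c0 h τ ↔ blocked T w c0 h σ := by
  unfold blocked
  refine exists_congr fun h' => ?_
  constructor
  · rintro ⟨h1, h2, h3⟩
    exact ⟨h1, h2, by rwa [← avg_pth_cell _ w c0 (mem_cell_mono h1 hτ)]⟩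
  · rintro ⟨h1, h2, h3⟩
    exact ⟨h1, h2, by rwa [avg_pth_cell _ w c0 (mem_cell_mono h1 hτ)]⟩

/-- the densities of the classes at a cell -/
noncomputable def phi (T : Finset (Kil F A I)) (w : Fin A → Gam F) (c0 : Fin I) (h : Fin A)
    (σ : Fin A → Bool) (γ : Gam F) : ℝ :=
  avg h (ind T) (pth (Function.update w h γ) σ c0)

theorem upd_pth (w : Fin A → Gam F) (σ : Fin A → Bool) (c0 : Fin I) (h : Fin A) (γ : Gam F) :
    upd h (γ, σ h) (pth w σ c0) = pth (Function.update w h γ) σ c0 := by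
  refine Prod.ext (funext fun i => ?_) rfl
  by_cases hi : i = h
  · subst hi
    rw [upd_fst_same]
    simp [pth]
  · rw [upd_fst_ne hi]
    simp [pth, Function.update_of_ne hi]

theorem avg'_pth (T : Finset (Kil F A I)) (w : Fin A → Gam F) (c0 : Fin I) (h : Fin A)
    (σ : Fin A → Bool) :
    avg' h (ind T) (pth w σ c0) = (∑ γ, phi T w c0 h σ γ) / Fintype.card (Gam F) := by
  unfold avg'
  congr 1
  refine Finset.sum_congr rfl fun γ _ => ?_
  have : ((pth w σ c0).1 h).2 = σ h := rfl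
  rw [this, upd_pth]; rfl

theorem phi_nonneg (T : Finset (Kil F A I)) (w : Fin A → Gam F) (c0 : Fin I) (h : Fin A)
    (σ : Fin A → Bool) (γ : Gam F) : 0 ≤ phi T w c0 h σ γ := avg_nonneg _ (ind_nonneg T) _

theorem phi_le_one (T : Finset (Kil F A I)) (w : Fin A → Gam F) (c0 : Fin I) (h : Fin A)
    (σ : Fin A → Bool) (γ : Gam F) : phi T w c0 h σ γ ≤ 1 := avg_le_one _ (ind_le_one T) _

theorem cardΓ_pos : (0 : ℝ) < Fintype.card (Gam F) := by
  have : Nonempty (Gam F) := ⟨(1, 0)⟩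
  exact_mod_cast Fintype.card_pos

theorem sum_phi (T : Finset (Kil F A I)) (w : Fin A → Gam F) (c0 : Fin I) (h : Fin A)
    (σ : Fin A → Bool) :
    ∑ γ, phi T w c0 h σ γ = Fintype.card (Gam F) * avg' h (ind T) (pth w σ c0) := by
  rw [avg'_pth]
  have := cardΓ_pos (F := F)
  field_simp

/-- L1 -/
theorem avg'_le_of_not_blocked {T : Finset (Kil F A I)} {w : Fin A → Gam F} {c0 : Fin I}
    {h : Fin A} {σ : Fin A → Bool} (hb : ¬ blocked T w c0 ((h : ℕ) + 1) σ) :
    avg' h (ind T) (pth w σ c0) ≤ 1 / 64 := by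
  have h1 : avg ((h : ℕ) + 1) (ind T) (pth w σ c0) ≤ 1 / 128 := by
    by_contra hcon
    push Not at hcon
    exact hb ⟨(h : ℕ) + 1, le_rfl, h.2, hcon⟩
  have h2 := avg_succ_eq' h (ind T) (pth w σ c0)
  have h3 : avg' h (ind T) (pth w σ c0) ≤
      ∑ b : Bool, avg' h (ind T) (upd h (((pth w σ c0).1 h).1, b) (pth w σ c0)) := by
    have h4 := Finset.single_le_sum (f := fun b : Bool =>
      avg' h (ind T) (upd h (((pth w σ c0).1 h).1, b) (pth w σ c0)))
      (fun b _ => avg'_nonneg h (ind_nonneg T) _) (Finset.mem_univ (((pth w σ c0).1 h).2))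
    simp only [Prod.mk.eta, upd_self] at h4
    exact h4
  rw [Fintype.card_bool] at h2
  push_cast at h2
  linarith

/-- variance of the class densities at a cell -/
noncomputable def VarS (T : Finset (Kil F A I)) (w : Fin A → Gam F) (c0 : Fin I) (h : Fin A)
    (σ : Fin A → Bool) : ℝ :=
  (∑ γ, (phi T w c0 h σ γ - avg' h (ind T) (pth w σ c0)) ^ 2) / Fintype.card (Gam F)

theorem VarS_nonneg (T : Finset (Kil F A I)) (w : Fin A → Gam F) (c0 : Fin I) (h : Fin A)
    (σ : Fin A → Bool) : 0 ≤ VarS T w c0 h σ :=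
  div_nonneg (Finset.sum_nonneg fun _ _ => sq_nonneg _) (Nat.cast_nonneg _)

theorem VarS_le (T : Finset (Kil F A I)) (w : Fin A → Gam F) (c0 : Fin I) (h : Fin A)
    (σ : Fin A → Bool) : VarS T w c0 h σ ≤ avg' h (ind T) (pth w σ c0) := by
  set μ := avg' h (ind T) (pth w σ c0) with hμ
  have hc := cardΓ_pos (F := F)
  unfold VarS
  rw [div_le_iff₀ hc, ← hμ]
  have h1 : ∑ γ, (phi T w c0 h σ γ - μ) ^ 2 =
      ∑ γ, phi T w c0 h σ γ ^ 2 - Fintype.card (Gam F) * μ ^ 2 := by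
    have : ∀ γ, (phi T w c0 h σ γ - μ) ^ 2 =
        phi T w c0 h σ γ ^ 2 - 2 * μ * phi T w c0 h σ γ + μ ^ 2 := fun γ => by ring
    simp_rw [this]
    rw [Finset.sum_add_distrib, Finset.sum_sub_distrib, ← Finset.mul_sum, sum_phi, ← hμ,
      Finset.sum_const, Finset.card_univ, nsmul_eq_mul]
    ring
  rw [h1]
  have h2 : ∑ γ, phi T w c0 h σ γ ^ 2 ≤ ∑ γ, phi T w c0 h σ γ := by
    refine Finset.sum_le_sum fun γ _ => ?_
    have a := phi_nonneg T w c0 h σ γ
    have b := phi_le_one T w c0 h σ γ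
    nlinarith
  rw [sum_phi, ← hμ] at h2
  have h3 : 0 ≤ (Fintype.card (Gam F) : ℝ) * μ ^ 2 := mul_nonneg hc.le (sq_nonneg _)
  linarith

/-- bad points at a cell -/
noncomputable def Bset (Sh : Fin A → Finset F) (T : Finset (Kil F A I)) (w : Fin A → Gam F)
    (c0 : Fin I) (h : Fin A) (σ : Fin A → Bool) : Finset F :=
  univ.filter (fun s => ((Sh h).card * (Fintype.card F - 1) : ℝ) / 2 <
    thru (Sh h) (phi T w c0 h σ) s)

theorem phi_cell (T : Finset (Kil F A I)) (w : Fin A → Gam F) (c0 : Fin I) (h : Fin A)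
    {σ τ : Fin A → Bool} (hτ : τ ∈ cell h σ) : phi T w c0 h τ = phi T w c0 h σ := by
  funext γ
  unfold phi
  exact avg_pth_cell _ _ _ hτ

theorem Bset_cell (Sh : Fin A → Finset F) (T : Finset (Kil F A I)) (w : Fin A → Gam F)
    (c0 : Fin I) (h : Fin A) {σ τ : Fin A → Bool} (hτ : τ ∈ cell h σ) :
    Bset Sh T w c0 h τ = Bset Sh T w c0 h σ := by
  unfold Bset
  rw [phi_cell T w c0 h hτ]

/-- L2 -/
theorem card_Bset_le {Sh : Fin A → Finset F} (hSh : ∀ i, (Sh i).card = 2 ^ (i : ℕ))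
    (hF : 2 ≤ Fintype.card F) {T : Finset (Kil F A I)} {w : Fin A → Gam F} {c0 : Fin I}
    {h : Fin A} {σ : Fin A → Bool} (hb : ¬ blocked T w c0 ((h : ℕ) + 1) σ) :
    ((Bset Sh T w c0 h σ).card : ℝ) * 2 ^ (h : ℕ) ≤
      16 * Fintype.card F * VarS T w c0 h σ := by
  have hc := cardΓ_pos (F := F)
  have hF' : (2 : ℝ) ≤ Fintype.card F := by exact_mod_cast hF
  have hS1 : 1 ≤ (Sh h).card := by rw [hSh]; exact Nat.one_le_two_pow
  have h1 := design (Sh h) hS1 hF (phi T w c0 h σ) (avg' h (ind T) (pth w σ c0))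
    (sum_phi T w c0 h σ) (Bset Sh T w c0 h σ) (by
      intro s hs
      unfold Bset at hs
      rw [Finset.mem_filter] at hs
      refine le_trans ?_ hs.2.le
      have h2 := avg'_le_of_not_blocked hb
      have h3 : (0 : ℝ) ≤ ((Sh h).card * (Fintype.card F - 1) : ℝ) :=
        mul_nonneg (Nat.cast_nonneg _) (by linarith)
      calc ((Sh h).card * (Fintype.card F - 1) : ℝ) * (avg' h (ind T) (pth w σ c0) + 1 / 4)
          ≤ ((Sh h).card * (Fintype.card F - 1) : ℝ) * (1 / 2) :=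
            mul_le_mul_of_nonneg_left (by linarith) h3
        _ = _ := by ring)
  unfold VarS
  rw [mul_div_assoc', le_div_iff₀ hc]
  rw [hSh] at h1
  push_cast at h1
  exact h1

/-- L4 -/
theorem card_Bset_le' {Sh : Fin A → Finset F} (hSh : ∀ i, (Sh i).card = 2 ^ (i : ℕ))
    (hF : 2 ≤ Fintype.card F) {T : Finset (Kil F A I)} {w : Fin A → Gam F} {c0 : Fin I}
    {h : Fin A} {σ : Fin A → Bool} (hb : ¬ blocked T w c0 ((h : ℕ) + 1) σ) :
    4 * (Bset Sh T w c0 h σ).card ≤ Fintype.card F := by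
  have h1 := card_Bset_le hSh hF hb
  have h2 := VarS_le T w c0 h σ
  have h3 := avg'_le_of_not_blocked hb
  have hF' : (2 : ℝ) ≤ Fintype.card F := by exact_mod_cast hF
  have h4 : (1 : ℝ) ≤ 2 ^ (h : ℕ) := one_le_pow₀ (by norm_num)
  have h5 : ((Bset Sh T w c0 h σ).card : ℝ) ≤ 16 * Fintype.card F * (1 / 64) := by
    calc ((Bset Sh T w c0 h σ).card : ℝ) = ((Bset Sh T w c0 h σ).card : ℝ) * 1 := by ring
      _ ≤ ((Bset Sh T w c0 h σ).card : ℝ) * 2 ^ (h : ℕ) :=
          mul_le_mul_of_nonneg_left h4 (Nat.cast_nonneg _)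
      _ ≤ _ := h1
      _ ≤ _ := by
          refine mul_le_mul_of_nonneg_left ?_ (by positivity)
          linarith
  have h6 : (4 : ℝ) * ((Bset Sh T w c0 h σ).card : ℝ) ≤ Fintype.card F := by linarith
  exact_mod_cast h6

open Classical in
/-- failing points at height `h` -/
noncomputable def Fail (Sh : Fin A → Finset F) (T : Finset (Kil F A I)) (w : Fin A → Gam F)
    (c0 : Fin I) (h : Fin A) : Finset F :=
  univ.filter (fun s => 2 ^ A ≤ 8 * (univ.filter (fun σ : Fin A → Bool =>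
    ¬ blocked T w c0 ((h : ℕ) + 1) σ ∧ s ∈ Bset Sh T w c0 h σ)).card)

theorem mem_Fail {Sh : Fin A → Finset F} {T : Finset (Kil F A I)} {w : Fin A → Gam F}
    {c0 : Fin I} {h : Fin A} {s : F} [DecidablePred (fun σ : Fin A → Bool =>
    ¬ blocked T w c0 ((h : ℕ) + 1) σ ∧ s ∈ Bset Sh T w c0 h σ)] :
    s ∈ Fail Sh T w c0 h ↔ 2 ^ A ≤ 8 * (univ.filter (fun σ : Fin A → Bool =>
    ¬ blocked T w c0 ((h : ℕ) + 1) σ ∧ s ∈ Bset Sh T w c0 h σ)).card := by
  unfold Fail
  rw [Finset.mem_filter]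
  simp only [Finset.mem_univ, true_and]
  convert Iff.rfl

/-- L6 -/
theorem card_Fail_le {Sh : Fin A → Finset F} (hSh : ∀ i, (Sh i).card = 2 ^ (i : ℕ))
    (hF : 2 ≤ Fintype.card F) (hq : Fintype.card F = 16 * 2 ^ A)
    (T : Finset (Kil F A I)) (w : Fin A → Gam F) (c0 : Fin I) (h : Fin A) :
    ((Fail Sh T w c0 h).card : ℝ) * 2 ^ (h : ℕ) ≤ 2 ^ 11 * ∑ σ, VarS T w c0 h σ := by
  classical
  have h1 : ((Fail Sh T w c0 h).card : ℝ) * 2 ^ A ≤
      8 * ∑ σ ∈ univ.filter (fun σ : Fin A → Bool => ¬ blocked T w c0 ((h : ℕ) + 1) σ),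
        ((Bset Sh T w c0 h σ).card : ℝ) := by
    have e1 : ((Fail Sh T w c0 h).card : ℝ) * 2 ^ A = ∑ s ∈ Fail Sh T w c0 h, (2 : ℝ) ^ A := by
      rw [Finset.sum_const, nsmul_eq_mul]
    rw [e1]
    have e2 : ∀ s ∈ Fail Sh T w c0 h, (2 : ℝ) ^ A ≤ 8 * ((univ.filter (fun σ : Fin A → Bool =>
        ¬ blocked T w c0 ((h : ℕ) + 1) σ ∧ s ∈ Bset Sh T w c0 h σ)).card : ℝ) := by
      intro s hs
      have := mem_Fail.1 hs
      exact_mod_cast this
    refine (Finset.sum_le_sum e2).trans ?_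
    rw [← Finset.mul_sum]
    refine mul_le_mul_of_nonneg_left ?_ (by norm_num)
    refine (Finset.sum_le_univ_sum_of_nonneg fun s => Nat.cast_nonneg _).trans ?_
    have e3 : ∀ s : F, ((univ.filter (fun σ : Fin A → Bool =>
        ¬ blocked T w c0 ((h : ℕ) + 1) σ ∧ s ∈ Bset Sh T w c0 h σ)).card : ℝ) =
        ∑ σ ∈ univ.filter (fun σ : Fin A → Bool => ¬ blocked T w c0 ((h : ℕ) + 1) σ),
          if s ∈ Bset Sh T w c0 h σ then (1 : ℝ) else 0 := by
      intro s
      rw [← Finset.sum_filter, Finset.filter_filter, Finset.sum_const, nsmul_eq_mul, mul_one]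
    simp_rw [e3]
    rw [Finset.sum_comm]
    refine Finset.sum_le_sum fun σ _ => ?_
    rw [← Finset.sum_filter, Finset.sum_const, nsmul_eq_mul, mul_one]
    have : (univ.filter (fun s => s ∈ Bset Sh T w c0 h σ)) = Bset Sh T w c0 h σ := by
      ext s; simp
    rw [this]
  have h2 : (∑ σ ∈ univ.filter (fun σ : Fin A → Bool => ¬ blocked T w c0 ((h : ℕ) + 1) σ),
        ((Bset Sh T w c0 h σ).card : ℝ)) * 2 ^ (h : ℕ) ≤
      16 * Fintype.card F * ∑ σ, VarS T w c0 h σ := by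
    rw [Finset.sum_mul, Finset.mul_sum]
    refine (Finset.sum_le_sum (g := fun σ => 16 * Fintype.card F * VarS T w c0 h σ) ?_).trans ?_
    · intro σ hσ
      rw [Finset.mem_filter] at hσ
      exact card_Bset_le hSh hF hσ.2
    · refine Finset.sum_le_univ_sum_of_nonneg fun σ => ?_
      have := VarS_nonneg T w c0 h σ
      positivity
  have h3 : (((Fail Sh T w c0 h).card : ℝ) * 2 ^ (h : ℕ)) * 2 ^ A ≤
      (2 ^ 11 * ∑ σ, VarS T w c0 h σ) * 2 ^ A := by
    have e4 : (Fintype.card F : ℝ) = 16 * 2 ^ A := by rw [hq]; push_cast; ring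
    rw [e4] at h2
    have e5 : (0 : ℝ) ≤ 2 ^ (h : ℕ) := by positivity
    nlinarith [mul_le_mul_of_nonneg_right h1 e5]
  exact le_of_mul_le_mul_right h3 (by positivity)

end Pool.Agent.H26.KP
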