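import Pool.Agent.helper26.KP.Det

set_option autoImplicit false
set_option linter.unusedSectionVars false

namespace Pool.Agent.H26.KP

open Finset

variable {F : Type} [Field F] [Fintype F] [DecidableEq F] {A I : ℕ}

open Classical in
/-- typical affine part of the context -/
structure GoodW (T : Finset (Kil F A I)) (w : Fin A → Gam F) (c0 : Fin I) : Prop where
  hblk : 8 * (univ.filter (fun σ : Fin A → Bool => blocked T w c0 0 σ)).card ≤ 2 ^ A
  hvar : ∑ h : Fin A, ∑ σ, VarS T w c0 h σ ≤ 2 ^ A / 2 ^ 15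

/-- good enabling function -/
def GoodE (Sh : Fin A → Finset F) (T : Finset (Kil F A I)) (w : Fin A → Gam F) (c0 : Fin I)
    (e : Enb F A I) : Prop :=
  ∀ (h : Fin A) (σ : Fin A → Bool) (s : F), s ∉ nbv Sh w → ¬ blocked T w c0 ((h : ℕ) + 1) σ →
    s ∉ Bset Sh T w c0 h σ → ∃ γ, s ∈ blk (Sh h) γ ∧ memb w e h γ σ ∉ T

/-- the conclusion -/
def Good (Sh : Fin A → Finset F) (T : Finset (Kil F A I)) (w : Fin A → Gam F)
    (e : Enb F A I) : Prop :=
  ∀ D : Finset F, 2 ^ 7 * D.card ≤ Fintype.card F → ∃ J : Finset (Kil F A I),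
    (∀ g ∈ J, ∃ h, RoleAt w e h g) ∧ (∀ g ∈ J, g ∉ T) ∧
    (∀ g ∈ J, ∀ g' ∈ J, ¬ (HG F A I).Adj g g') ∧
    (∀ x ∈ D, x ∉ nbv Sh w → ∃ g ∈ J, x ∈ nbv Sh (vv g)) ∧
    (∀ g, (∃ h, RoleAt w e h g) → g ∉ J → ∃ g' ∈ J, (HG F A I).Adj g g')

theorem ne_of_mem_blk {Sh : Fin A → Finset F} {w : Fin A → Gam F} {h : Fin A} {γ : Gam F} {s : F}
    (hs : s ∉ nbv Sh w) (hγ : s ∈ blk (Sh h) γ) : γ ≠ w h := by
  rintro rfl
  exact hs (mem_nbv.2 ⟨h, hγ⟩)

/-- fillers exist -/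
theorem filler {Sh : Fin A → Finset F} (hSh : ∀ i, (Sh i).card = 2 ^ (i : ℕ))
    (hq : Fintype.card F = 16 * 2 ^ A) {T : Finset (Kil F A I)} {w : Fin A → Gam F} {c0 : Fin I}
    {e : Enb F A I} (hE : GoodE Sh T w c0 e) (h : Fin A) (σ : Fin A → Bool)
    (hb : ¬ blocked T w c0 ((h : ℕ) + 1) σ) : ∃ γ, γ ≠ w h ∧ memb w e h γ σ ∉ T := by
  have h2A : 1 ≤ 2 ^ A := Nat.one_le_two_pow
  have hF : 2 ≤ Fintype.card F := by omega
  have h1 := card_Bset_le' hSh hF hb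
  have h2 := card_nbv_le hSh w
  have h3 : ∃ s, s ∉ Bset Sh T w c0 h σ ∪ nbv Sh w := by
    by_contra hcon
    push Not at hcon
    have h4 : (univ : Finset F) ⊆ Bset Sh T w c0 h σ ∪ nbv Sh w := fun s _ => hcon s
    have h5 := Finset.card_le_card h4
    have h6 := Finset.card_union_le (Bset Sh T w c0 h σ) (nbv Sh w)
    rw [Finset.card_univ] at h5
    omega
  obtain ⟨s, hs⟩ := h3
  rw [Finset.mem_union, not_or] at hs
  obtain ⟨γ, hγ, hm⟩ := hE h σ s hs.2 hb hs.1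
  exact ⟨γ, ne_of_mem_blk hs.2 hγ, hm⟩

/-- no failing points at the top height -/
theorem Fail_top {Sh : Fin A → Finset F} (hSh : ∀ i, (Sh i).card = 2 ^ (i : ℕ))
    (hq : Fintype.card F = 16 * 2 ^ A) {T : Finset (Kil F A I)} {w : Fin A → Gam F} {c0 : Fin I}
    (hW : GoodW T w c0) (h : Fin A) (hh : (h : ℕ) + 1 = A) : Fail Sh T w c0 h = ∅ := by
  have h2A : 1 ≤ 2 ^ A := Nat.one_le_two_pow
  have hF : 2 ≤ Fintype.card F := by omega
  have h1 := card_Fail_le hSh hF hq T w c0 h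
  have h2 : ∑ σ, VarS T w c0 h σ ≤ ∑ h : Fin A, ∑ σ, VarS T w c0 h σ :=
    Finset.single_le_sum (f := fun h : Fin A => ∑ σ, VarS T w c0 h σ)
      (fun h _ => Finset.sum_nonneg fun σ _ => VarS_nonneg T w c0 h σ) (Finset.mem_univ h)
  have h3 := hW.hvar
  have h4 : (2 : ℝ) ^ A = 2 * 2 ^ (h : ℕ) := by
    have : (2 : ℝ) ^ A = 2 ^ ((h : ℕ) + 1) := congrArg _ hh.symm
    rw [this, pow_succ]; ring
  have h5 : (0 : ℝ) < 2 ^ (h : ℕ) := by positivity
  rw [h4] at h3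
  have h6 : ((Fail Sh T w c0 h).card : ℝ) * 2 ^ (h : ℕ) < 1 * 2 ^ (h : ℕ) := by
    calc ((Fail Sh T w c0 h).card : ℝ) * 2 ^ (h : ℕ) ≤ 2 ^ 11 * ∑ σ, VarS T w c0 h σ := h1
      _ ≤ 2 ^ 11 * (2 * 2 ^ (h : ℕ) / 2 ^ 15) :=
          mul_le_mul_of_nonneg_left (h2.trans h3) (by norm_num)
      _ < 1 * 2 ^ (h : ℕ) := by
          have : (2 : ℝ) ^ 11 * (2 * 2 ^ (h : ℕ) / 2 ^ 15) = (1 / 8) * 2 ^ (h : ℕ) := by ring
          rw [this]
          linarith
  have h7 : ((Fail Sh T w c0 h).card : ℝ) < 1 := lt_of_mul_lt_mul_right h6 h5.le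
  have h8 : (Fail Sh T w c0 h).card < 1 := by exact_mod_cast h7
  exact Finset.card_eq_zero.1 (by omega)

/-- the deterministic theorem -/
theorem good_of {Sh : Fin A → Finset F} (hSh : ∀ i, (Sh i).card = 2 ^ (i : ℕ))
    (hq : Fintype.card F = 16 * 2 ^ A) (hA : 1 ≤ A) {T : Finset (Kil F A I)}
    {w : Fin A → Gam F} {c0 : Fin I}
    {e : Enb F A I} (hW : GoodW T w c0) (hE : GoodE Sh T w c0 e) : Good Sh T w e := by
  classical
  intro D hD
  have h2A : 1 ≤ 2 ^ A := Nat.one_le_two_pow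
  have hF : 2 ≤ Fintype.card F := by omega
  have hslots : (univ : Finset (Fin A → Bool)).card = 2 ^ A := by
    rw [Finset.card_univ, Fintype.card_fun, Fintype.card_bool, Fintype.card_fin]
  set S : Finset F := D.filter (fun s => s ∉ nbv Sh w) with hS
  have hex : ∀ s : F, ∃ n, ∃ hn : n < A, s ∉ Fail Sh T w c0 ⟨n, hn⟩ := by
    intro s
    refine ⟨A - 1, by omega, ?_⟩
    rw [Fail_top hSh hq hW ⟨A - 1, by omega⟩ (by simp; omega)]
    simp
  set ht : F → ℕ := fun s => Nat.find (hex s) with hht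
  have hlt : ∀ s, ht s < A := fun s => (Nat.find_spec (hex s)).choose
  have hnf : ∀ s, s ∉ Fail Sh T w c0 ⟨ht s, hlt s⟩ := fun s => (Nat.find_spec (hex s)).choose_spec
  have hmin : ∀ s n (hn : n < A), n < ht s → s ∈ Fail Sh T w c0 ⟨n, hn⟩ := by
    intro s n hn hn'
    by_contra hcon
    exact Nat.find_min (hex s) hn' ⟨hn, hcon⟩
  -- total measure of the demands
  have hpow : ∀ s, ((2 : ℝ) ^ (ht s)) ≤
      1 + ∑ h : Fin A, if s ∈ Fail Sh T w c0 h then (2 : ℝ) ^ ((h : ℕ) + 1) else 0 := by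
    intro s
    have hnn : ∀ h : Fin A, (0 : ℝ) ≤ if s ∈ Fail Sh T w c0 h then (2 : ℝ) ^ ((h : ℕ) + 1) else 0 := by
      intro h
      split_ifs
      · positivity
      · exact le_rfl
    rcases Nat.eq_zero_or_pos (ht s) with h0 | h0
    · rw [h0, pow_zero]
      have := Finset.sum_nonneg (fun (h : Fin A) (_ : h ∈ univ) => hnn h)
      linarith
    · obtain ⟨n, hn⟩ : ∃ n, ht s = n + 1 := ⟨ht s - 1, by omega⟩
      have hnA : n < A := by have := hlt s; omega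
      have hmem := hmin s n hnA (by omega)
      have h1 := Finset.single_le_sum (f := fun h : Fin A =>
        if s ∈ Fail Sh T w c0 h then (2 : ℝ) ^ ((h : ℕ) + 1) else 0) (fun h _ => hnn h)
        (Finset.mem_univ (⟨n, hnA⟩ : Fin A))
      simp only [hmem, if_true] at h1
      rw [hn]
      linarith
  have hsum : ∑ s ∈ S, (2 : ℝ) ^ (ht s) ≤ 2 ^ A / 4 := by
    have h1 : ∑ s ∈ S, (2 : ℝ) ^ (ht s) ≤ (S.card : ℝ) +
        ∑ h : Fin A, ((Fail Sh T w c0 h).card : ℝ) * 2 ^ ((h : ℕ) + 1) := by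
      refine (Finset.sum_le_sum fun s _ => hpow s).trans ?_
      rw [Finset.sum_add_distrib, Finset.sum_const, nsmul_eq_mul, mul_one]
      refine add_le_add le_rfl ?_
      rw [Finset.sum_comm]
      refine Finset.sum_le_sum fun h _ => ?_
      have h2 : ∑ s ∈ S, (if s ∈ Fail Sh T w c0 h then (2 : ℝ) ^ ((h : ℕ) + 1) else 0) ≤
          ∑ s, (if s ∈ Fail Sh T w c0 h then (2 : ℝ) ^ ((h : ℕ) + 1) else 0) := by
        refine Finset.sum_le_univ_sum_of_nonneg fun s => ?_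
        split_ifs
        · positivity
        · exact le_rfl
      refine h2.trans (le_of_eq ?_)
      rw [← Finset.sum_filter, Finset.sum_const, nsmul_eq_mul]
      congr 2
      congr 1
      ext s; simp
    have h3 : ((S.card : ℕ) : ℝ) ≤ 2 ^ A / 8 := by
      have h4 : S.card ≤ D.card := Finset.card_filter_le _ _
      have h5 : 2 ^ 7 * S.card ≤ 16 * 2 ^ A := by rw [← hq]; omega
      have h6 : (2 ^ 7 * S.card : ℝ) ≤ 16 * 2 ^ A := by exact_mod_cast h5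
      linarith
    have h7 : ∑ h : Fin A, ((Fail Sh T w c0 h).card : ℝ) * 2 ^ ((h : ℕ) + 1) ≤ 2 ^ A / 8 := by
      have h8 : ∀ h : Fin A, ((Fail Sh T w c0 h).card : ℝ) * 2 ^ ((h : ℕ) + 1) ≤
          2 ^ 12 * ∑ σ, VarS T w c0 h σ := by
        intro h
        have := card_Fail_le hSh hF hq T w c0 h
        rw [pow_succ]
        linarith
      refine (Finset.sum_le_sum fun h _ => h8 h).trans ?_
      rw [← Finset.mul_sum]
      have := hW.hvar
      linarith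
    linarith
  -- the forbidden slots
  set forb : F → Finset (Fin A → Bool) := fun s =>
    univ.filter (fun σ => blocked T w c0 (ht s) σ) ∪
    univ.filter (fun σ => ¬ blocked T w c0 (ht s + 1) σ ∧ s ∈ Bset Sh T w c0 ⟨ht s, hlt s⟩ σ) with hforb
  have hcard : ∀ d ∈ S, (forb d).card + ∑ d' ∈ S, 2 ^ (ht d') < 2 ^ A := by
    intro d _
    have h1 : 8 * (univ.filter (fun σ => blocked T w c0 (ht d) σ)).card ≤ 2 ^ A := by
      refine le_trans (Nat.mul_le_mul_left 8 (Finset.card_le_card ?_)) hW.hblk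
      intro σ hσ
      rw [Finset.mem_filter] at hσ ⊢
      exact ⟨hσ.1, blocked_anti (Nat.zero_le _) hσ.2⟩
    have h2 : 8 * (univ.filter (fun σ => ¬ blocked T w c0 (ht d + 1) σ ∧
        d ∈ Bset Sh T w c0 ⟨ht d, hlt d⟩ σ)).card < 2 ^ A := by
      have := hnf d
      rw [mem_Fail] at this
      push Not at this
      exact this
    have h3 : 4 * ∑ d' ∈ S, 2 ^ (ht d') ≤ 2 ^ A := by
      have : (4 * ∑ s ∈ S, (2 : ℝ) ^ (ht s)) ≤ 2 ^ A := by linarith
      exact_mod_cast this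
    have h4 := Finset.card_union_le (univ.filter (fun σ => blocked T w c0 (ht d) σ))
      (univ.filter (fun σ => ¬ blocked T w c0 (ht d + 1) σ ∧
        d ∈ Bset Sh T w c0 ⟨ht d, hlt d⟩ σ))
    simp only [hforb]
    omega
  obtain ⟨σ, hσ1, hσ2⟩ := greedy S ht (fun d _ => (hlt d).le) forb hcard
  -- killers of the demands
  have hub : ∀ s ∈ S, ¬ blocked T w c0 (ht s) (σ s) := by
    intro s hs hcon
    apply hσ1 s hs
    simp only [hforb]
    exact Finset.mem_union_left _ (Finset.mem_filter.2 ⟨Finset.mem_univ _, hcon⟩)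
  have hkd : ∀ s ∈ S, ∃ γ, s ∈ blk (Sh ⟨ht s, hlt s⟩) γ ∧
      memb w e ⟨ht s, hlt s⟩ γ (σ s) ∉ T := by
    intro s hs
    have hub1 : ¬ blocked T w c0 (ht s + 1) (σ s) := fun hcon =>
      hub s hs (blocked_anti (Nat.le_succ _) hcon)
    refine hE ⟨ht s, hlt s⟩ (σ s) s (Finset.mem_filter.1 hs).2 hub1 ?_
    intro hcon
    apply hσ1 s hs
    simp only [hforb]
    exact Finset.mem_union_right _ (Finset.mem_filter.2 ⟨Finset.mem_univ _, hub1, hcon⟩)
  choose! γd hγd1 hγd2 using hkd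
  -- fillers
  have hfil : ∀ (h : Fin A) (τ : Fin A → Bool), ∃ γ, ¬ blocked T w c0 ((h : ℕ) + 1) τ →
      γ ≠ w h ∧ memb w e h γ τ ∉ T := by
    intro h τ
    by_cases hb : blocked T w c0 ((h : ℕ) + 1) τ
    · exact ⟨(1, 0), fun hc => absurd hb hc⟩
    · obtain ⟨γ, h1, h2⟩ := filler hSh hq hE h τ hb
      exact ⟨γ, fun _ => ⟨h1, h2⟩⟩
  choose γf hγf using hfil
  -- highest reserved height
  set hr : (Fin A → Bool) → ℕ := fun τ =>
    Nat.findGreatest (fun h => (1 / 128 : ℝ) < avg h (ind T) (pth w τ c0)) (A - 1) with hhr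
  have hrlt : ∀ τ, hr τ < A := fun τ => by
    have := Nat.findGreatest_le (P := fun h => (1 / 128 : ℝ) < avg h (ind T) (pth w τ c0)) (A - 1)
    simp only [hhr]
    omega
  have hrspec : ∀ τ, hr τ ≠ 0 → (1 / 128 : ℝ) < avg (hr τ) (ind T) (pth w τ c0) := by
    intro τ hτ
    exact Nat.findGreatest_of_ne_zero rfl hτ
  have hrgt : ∀ τ n, hr τ < n → n ≤ A - 1 → ¬ (1 / 128 : ℝ) < avg n (ind T) (pth w τ c0) := by
    intro τ n h1 h2
    exact Nat.findGreatest_is_greatest h1 h2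
  have hrcell : ∀ τ τ', τ' ∈ cell (hr τ) τ → hr τ' = hr τ := by
    intro τ τ' hτ
    rcases Nat.eq_zero_or_pos (hr τ) with h0 | h0
    · rw [h0] at hτ
      have : τ' = τ := funext fun i => mem_cell.1 hτ i (Nat.zero_le _)
      rw [this]
    · have hres := hrspec τ (by omega)
      refine (Nat.findGreatest_eq_iff (P := fun h => (1 / 128 : ℝ) <
        avg h (ind T) (pth w τ' c0))).2 ⟨by have := hrlt τ; omega, ?_, ?_⟩
      · intro _
        rw [avg_pth_cell _ w c0 hτ]; exact hres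
      · intro n h1 h2
        rw [avg_pth_cell _ w c0 (mem_cell_mono h1.le hτ)]
        exact hrgt τ n h1 h2
  have hrub : ∀ τ, ¬ blocked T w c0 (hr τ + 1) τ := by
    rintro τ ⟨h', h1, h2, h3⟩
    rcases Nat.lt_or_ge h' A with h4 | h4
    · exact hrgt τ h' (by omega) (by omega) h3
    · have h5 : h' = A := le_antisymm h2 h4
      subst h5
      have h6 : (univ.filter (fun σ : Fin h' → Bool => blocked T w c0 0 σ)) = univ := by
        ext ρ
        simp only [Finset.mem_filter, Finset.mem_univ, true_and, iff_true]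
        refine ⟨h', Nat.zero_le _, le_rfl, ?_⟩
        rwa [avg_pth_cell (h := h') _ w c0 (σ := τ) (τ := ρ)
          (mem_cell.2 fun i hi => absurd i.2 (by omega))]
      have h7 := hW.hblk
      have h8 : (univ.filter (fun σ : Fin h' → Bool => blocked T w c0 0 σ)).card = 2 ^ h' := by
        rw [h6, hslots]
      omega
  -- the owner function
  set AS : (Fin A → Bool) → Prop := fun τ => ∃ s ∈ S, τ ∈ cell (ht s) (σ s) with hAS
  have huniq : ∀ s ∈ S, ∀ s' ∈ S, ∀ τ, τ ∈ cell (ht s) (σ s) → τ ∈ cell (ht s') (σ s') → s = s' := by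
    intro s hs s' hs' τ h1 h2
    by_contra hne
    have := hσ2 s hs s' hs' hne
    rw [Finset.disjoint_left] at this
    exact this h1 h2
  set hh : (Fin A → Bool) → Fin A := fun τ =>
    if hτ : AS τ then ⟨ht hτ.choose, hlt _⟩ else ⟨hr τ, hrlt τ⟩ with hhh
  set K : (Fin A → Bool) → Kil F A I := fun τ =>
    if hτ : AS τ then memb w e ⟨ht hτ.choose, hlt _⟩ (γd hτ.choose) (σ hτ.choose)
    else memb w e ⟨hr τ, hrlt τ⟩ (γf ⟨hr τ, hrlt τ⟩ (rep (hr τ) τ)) (rep (hr τ) τ) with hK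
  have hKas : ∀ s ∈ S, ∀ τ, τ ∈ cell (ht s) (σ s) →
      hh τ = ⟨ht s, hlt s⟩ ∧ K τ = memb w e ⟨ht s, hlt s⟩ (γd s) (σ s) := by
    intro s hs τ hτ
    have has : AS τ := ⟨s, hs, hτ⟩
    have heq : has.choose = s :=
      huniq _ has.choose_spec.1 s hs τ has.choose_spec.2 hτ
    constructor
    · simp only [hhh, has, dif_pos]
      congr 1
      rw [heq]
    · simp only [hK, has, dif_pos]
      congr 1
      · congr 1
        rw [heq]
      · rw [heq]
      · rw [heq]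
  have hKna : ∀ τ, ¬ AS τ → hh τ = ⟨hr τ, hrlt τ⟩ ∧
      K τ = memb w e ⟨hr τ, hrlt τ⟩ (γf ⟨hr τ, hrlt τ⟩ (rep (hr τ) τ)) (rep (hr τ) τ) := by
    intro τ hτ
    constructor
    · simp only [hhh, hτ, dif_neg, not_false_eq_true]
    · simp only [hK, hτ, dif_neg, not_false_eq_true]
  have hrub' : ∀ τ, ¬ blocked T w c0 (hr τ + 1) (rep (hr τ) τ) := by
    intro τ hcon
    exact hrub τ ((blocked_cell (mem_cell_mono (Nat.le_succ _) (rep_mem (hr τ) τ))).1 hcon)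
  have k1 : ∀ τ, RoleAt w e (hh τ) (K τ) := by
    intro τ
    by_cases hτ : AS τ
    · obtain ⟨s, hs, hc⟩ := hτ
      obtain ⟨e1, e2⟩ := hKas s hs τ hc
      rw [e1, e2]
      exact roleAt_memb (ne_of_mem_blk (Finset.mem_filter.1 hs).2 (hγd1 s hs))
    · obtain ⟨e1, e2⟩ := hKna τ hτ
      rw [e1, e2]
      exact roleAt_memb (hγf ⟨hr τ, hrlt τ⟩ (rep (hr τ) τ) (hrub' τ)).1
  have k1' : ∀ τ, K τ ∉ T := by
    intro τ
    by_cases hτ : AS τ
    · obtain ⟨s, hs, hc⟩ := hτ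
      obtain ⟨e1, e2⟩ := hKas s hs τ hc
      rw [e2]
      exact hγd2 s hs
    · obtain ⟨e1, e2⟩ := hKna τ hτ
      rw [e2]
      exact (hγf ⟨hr τ, hrlt τ⟩ (rep (hr τ) τ) (hrub' τ)).2
  have k2 : ∀ τ, ss (K τ) ∈ cell (hh τ) τ := by
    intro τ
    by_cases hτ : AS τ
    · obtain ⟨s, hs, hc⟩ := hτ
      obtain ⟨e1, e2⟩ := hKas s hs τ hc
      rw [e1, e2]
      exact mem_cell_trans (mem_cell_symm hc) ss_memb_mem_cell
    · obtain ⟨e1, e2⟩ := hKna τ hτ
      rw [e1, e2]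
      exact mem_cell_trans (rep_mem (hr τ) τ) ss_memb_mem_cell
  have k3 : ∀ τ τ', τ' ∈ cell (hh τ) τ → K τ' = K τ := by
    intro τ τ' hc'
    by_cases hτ : AS τ
    · obtain ⟨s, hs, hc⟩ := hτ
      obtain ⟨e1, e2⟩ := hKas s hs τ hc
      rw [e1] at hc'
      have hc2 : τ' ∈ cell (ht s) (σ s) := mem_cell_trans hc hc'
      obtain ⟨e3, e4⟩ := hKas s hs τ' hc2
      rw [e2, e4]
    · obtain ⟨e1, e2⟩ := hKna τ hτ
      rw [e1] at hc'
      have hc2 : τ' ∈ cell (hr τ) τ := hc'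
      have hτ' : ¬ AS τ' := by
        rintro ⟨s, hs, hc3⟩
        rcases Nat.lt_or_ge (ht s) (hr τ) with h1 | h1
        · -- the assigned cell would be blocked
          have hres := hrspec τ (by omega)
          apply hub s hs
          refine ⟨hr τ, h1.le, (hrlt τ).le, ?_⟩
          have h2 : σ s ∈ cell (hr τ) τ :=
            mem_cell_trans hc2 (mem_cell_mono h1.le (mem_cell_symm hc3))
          rwa [avg_pth_cell _ w c0 h2]
        · exact hτ ⟨s, hs, mem_cell_trans hc3 (mem_cell_mono h1 (mem_cell_symm hc2))⟩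
      obtain ⟨e3, e4⟩ := hKna τ' hτ'
      have h3 := hrcell τ τ' hc2
      rw [e4, e2]
      have h4 : rep (hr τ) τ' = rep (hr τ) τ := rep_eq hc2
      have h5 : (⟨hr τ', hrlt τ'⟩ : Fin A) = ⟨hr τ, hrlt τ⟩ := Fin.ext h3
      rw [h5, h3, h4]
  obtain ⟨o1, o2⟩ := owner K hh k1 k2 k3
  refine ⟨univ.image K, ?_, ?_, ?_, ?_, ?_⟩
  · intro g hg
    obtain ⟨τ, _, rfl⟩ := Finset.mem_image.1 hg
    exact ⟨_, k1 τ⟩
  · intro g hg
    obtain ⟨τ, _, rfl⟩ := Finset.mem_image.1 hg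
    exact k1' τ
  · intro g hg g' hg'
    obtain ⟨τ, _, rfl⟩ := Finset.mem_image.1 hg
    obtain ⟨τ', _, rfl⟩ := Finset.mem_image.1 hg'
    exact o1 τ τ'
  · intro x hx hxw
    have hxS : x ∈ S := Finset.mem_filter.2 ⟨hx, hxw⟩
    refine ⟨K (σ x), Finset.mem_image_of_mem _ (Finset.mem_univ _), ?_⟩
    obtain ⟨e1, e2⟩ := hKas x hxS (σ x) (self_mem_cell _ _)
    rw [e2, mem_nbv]
    refine ⟨⟨ht x, hlt x⟩, ?_⟩
    rw [vv_memb_self]
    exact hγd1 x hxS
  · intro g hg hgJ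
    obtain ⟨h, hg⟩ := hg
    obtain ⟨τ, hτ⟩ := o2 h g hg (fun τ hcon => hgJ (by
      rw [← hcon]; exact Finset.mem_image_of_mem _ (Finset.mem_univ _)))
    exact ⟨K τ, Finset.mem_image_of_mem _ (Finset.mem_univ _), hτ⟩

end Pool.Agent.H26.KP
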