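import Pool.Agent.helper26.KP.Struct

set_option autoImplicit false
set_option linter.unusedSectionVars false

namespace Pool.Agent.H26.KP

open Finset

/-- greedy choice of pairwise disjoint cells, from high to low -/
theorem greedy {A : ℕ} {D : Type} [DecidableEq D] (s : Finset D) (ht : D → ℕ)
    (hht : ∀ d ∈ s, ht d ≤ A) (forb : D → Finset (Fin A → Bool))
    (hcard : ∀ d ∈ s, (forb d).card + ∑ d' ∈ s, 2 ^ (ht d') < 2 ^ A) :
    ∃ σ : D → (Fin A → Bool), (∀ d ∈ s, σ d ∉ forb d) ∧
      ∀ d ∈ s, ∀ d' ∈ s, d ≠ d' → Disjoint (cell (ht d) (σ d)) (cell (ht d') (σ d')) := by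
  classical
  revert hht hcard
  refine Finset.induction_on_min_value (f := ht) (motive := fun s => (∀ d ∈ s, ht d ≤ A) →
    (∀ d ∈ s, (forb d).card + ∑ d' ∈ s, 2 ^ (ht d') < 2 ^ A) →
    ∃ σ : D → (Fin A → Bool), (∀ d ∈ s, σ d ∉ forb d) ∧
      ∀ d ∈ s, ∀ d' ∈ s, d ≠ d' → Disjoint (cell (ht d) (σ d)) (cell (ht d') (σ d'))) s ?_ ?_
  · intro _ _
    exact ⟨fun _ _ => false, by simp, by simp⟩
  · intro a s ha hmin ih hht hcard
    obtain ⟨σ, h1, h2⟩ := ih (fun d hd => hht d (Finset.mem_insert_of_mem hd)) (by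
      intro d hd
      refine lt_of_le_of_lt ?_ (hcard d (Finset.mem_insert_of_mem hd))
      rw [Finset.sum_insert ha]
      have := Nat.zero_le (2 ^ ht a)
      exact Nat.add_le_add_left (Nat.le_add_left _ _) _)
    -- choose a slot for `a`
    have hex : ∃ τ, τ ∉ forb a ∪ s.biUnion (fun d => cell (ht d) (σ d)) := by
      by_contra hcon
      push Not at hcon
      have h3 : (univ : Finset (Fin A → Bool)) ⊆ forb a ∪ s.biUnion (fun d => cell (ht d) (σ d)) :=
        fun τ _ => hcon τ
      have h4 := Finset.card_le_card h3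
      have h5 : (univ : Finset (Fin A → Bool)).card = 2 ^ A := by
        rw [Finset.card_univ, Fintype.card_fun, Fintype.card_bool, Fintype.card_fin]
      have h6 : (s.biUnion (fun d => cell (ht d) (σ d))).card ≤ ∑ d ∈ s, 2 ^ (ht d) := by
        refine Finset.card_biUnion_le.trans (Finset.sum_le_sum fun d hd => ?_)
        rw [card_cell (hht d (Finset.mem_insert_of_mem hd))]
      have h7 := Finset.card_union_le (forb a) (s.biUnion (fun d => cell (ht d) (σ d)))
      have h8 := hcard a (Finset.mem_insert_self a s)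
      rw [Finset.sum_insert ha] at h8
      rw [h5] at h4
      have h9 : 0 ≤ 2 ^ ht a := Nat.zero_le _
      generalize 2 ^ ht a = z at h8 h9
      generalize 2 ^ A = zA at h8 h4
      omega
    obtain ⟨τ, hτ⟩ := hex
    rw [Finset.mem_union, not_or, Finset.mem_biUnion] at hτ
    have hd : ∀ d ∈ s, Disjoint (cell (ht d) (σ d)) (cell (ht a) τ) := by
      intro d hd
      refine cell_disj_of_not_mem (hmin d hd) ?_
      intro hcon
      exact hτ.2 ⟨d, hd, hcon⟩
    refine ⟨Function.update σ a τ, ?_, ?_⟩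
    · intro d hd'
      rcases Finset.mem_insert.1 hd' with rfl | hds
      · rw [Function.update_self]; exact hτ.1
      · rw [Function.update_of_ne (by rintro rfl; exact ha hds)]
        exact h1 d hds
    · intro d hd' d' hd'' hne
      rcases Finset.mem_insert.1 hd' with rfl | hds
      · rcases Finset.mem_insert.1 hd'' with rfl | hds'
        · exact absurd rfl hne
        · rw [Function.update_self, Function.update_of_ne (by rintro rfl; exact ha hds')]
          exact (hd d' hds').symm
      · rcases Finset.mem_insert.1 hd'' with rfl | hds'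
        · rw [Function.update_self, Function.update_of_ne (by rintro rfl; exact ha hds)]
          exact hd d hds
        · rw [Function.update_of_ne (by rintro rfl; exact ha hds),
            Function.update_of_ne (by rintro rfl; exact ha hds')]
          exact h2 d hds d' hds' hne

section
variable {F : Type} [Field F] [Fintype F] [DecidableEq F] {A I : ℕ}

/-- the set killed by the affine data `v` (with base shapes `Sh`) -/
def nbv (Sh : Fin A → Finset F) (v : Fin A → Gam F) : Finset F :=
  univ.biUnion (fun i : Fin A => blk (Sh i) (v i))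

theorem mem_nbv {Sh : Fin A → Finset F} {v : Fin A → Gam F} {x : F} :
    x ∈ nbv Sh v ↔ ∃ i, x ∈ blk (Sh i) (v i) := by
  simp [nbv]

theorem sum_two_pow_fin_le (h : Fin A) :
    ∑ i ∈ univ.filter (fun i : Fin A => i ≤ h), 2 ^ (i : ℕ) ≤ 2 ^ ((h : ℕ) + 1) := by
  have h1 : ∑ i ∈ univ.filter (fun i : Fin A => i ≤ h), 2 ^ (i : ℕ) =
      ∑ j ∈ Finset.range ((h : ℕ) + 1), 2 ^ j := by
    refine Finset.sum_bij (fun i _ => (i : ℕ)) ?_ ?_ ?_ ?_
    · intro i hi
      rw [Finset.mem_filter] at hi
      rw [Finset.mem_range]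
      have : (i : ℕ) ≤ h := hi.2
      omega
    · intro i _ j _ hij
      exact Fin.ext hij
    · intro j hj
      rw [Finset.mem_range] at hj
      refine ⟨⟨j, by omega⟩, ?_, rfl⟩
      rw [Finset.mem_filter]
      exact ⟨Finset.mem_univ _, by rw [Fin.le_def]; simp; omega⟩
    · intro i _; rfl
  rw [h1]
  have := Nat.geomSum_lt (m := 2) (n := (h : ℕ) + 1) (s := Finset.range ((h : ℕ) + 1)) le_rfl
    (fun k hk => Finset.mem_range.1 hk)
  exact this.le

theorem card_nbv_le {Sh : Fin A → Finset F} (hSh : ∀ i, (Sh i).card = 2 ^ (i : ℕ))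
    (v : Fin A → Gam F) : (nbv Sh v).card ≤ 2 ^ A := by
  unfold nbv
  refine Finset.card_biUnion_le.trans ?_
  simp_rw [card_blk, hSh]
  rw [Fin.sum_univ_eq_sum_range (fun i => 2 ^ i) A]
  exact (Nat.geomSum_lt (m := 2) (n := A) (s := Finset.range A) le_rfl
    (fun k hk => Finset.mem_range.1 hk)).le

/-- the part of the killed set of an alive killer outside the set killed by the context -/
theorem card_nbv_diff_le {Sh : Fin A → Finset F} (hSh : ∀ i, (Sh i).card = 2 ^ (i : ℕ))
    {w : Fin A → Gam F} {e : Enb F A I} {h : Fin A} {g : Kil F A I} (hg : RoleAt w e h g) :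
    (nbv Sh (vv g) \ nbv Sh w).card ≤ 2 * 2 ^ (h : ℕ) := by
  have h1 : nbv Sh (vv g) \ nbv Sh w ⊆
      (univ.filter (fun i : Fin A => i ≤ h)).biUnion (fun i => blk (Sh i) (vv g i)) := by
    intro x hx
    rw [Finset.mem_sdiff, mem_nbv, mem_nbv] at hx
    obtain ⟨⟨i, hi⟩, h2⟩ := hx
    rw [Finset.mem_biUnion]
    refine ⟨i, ?_, hi⟩
    rw [Finset.mem_filter]
    refine ⟨Finset.mem_univ _, ?_⟩
    by_contra hcon
    push Not at hcon
    apply h2
    exact ⟨i, by rw [← hg.gt hcon]; exact hi⟩
  refine (Finset.card_le_card h1).trans (Finset.card_biUnion_le.trans ?_)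
  simp_rw [card_blk, hSh]
  refine (sum_two_pow_fin_le h).trans (le_of_eq ?_)
  rw [pow_succ]; ring

/-- the cap -/
theorem cap {Sh : Fin A → Finset F} (hSh : ∀ i, (Sh i).card = 2 ^ (i : ℕ))
    {w : Fin A → Gam F} {e : Enb F A I} (K : Finset (Kil F A I))
    (hK : ∀ g ∈ K, ∃ h, RoleAt w e h g)
    (hind : ∀ g ∈ K, ∀ g' ∈ K, ¬ (HG F A I).Adj g g') :
    (K.biUnion (fun g => nbv Sh (vv g) \ nbv Sh w)).card ≤ 2 * 2 ^ A := by
  classical
  rcases K.eq_empty_or_nonempty with hKe | ⟨g0, hg0⟩
  · rw [hKe]; simp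
  have : Nonempty (Fin A) := ⟨(hK g0 hg0).choose⟩
  choose! h hh using hK
  have h1 : (K.biUnion (fun g => nbv Sh (vv g) \ nbv Sh w)).card ≤
      ∑ g ∈ K, 2 * 2 ^ (h g : ℕ) :=
    Finset.card_biUnion_le.trans (Finset.sum_le_sum fun g hg => card_nbv_diff_le hSh (hh g hg))
  refine h1.trans ?_
  rw [← Finset.mul_sum]
  refine Nat.mul_le_mul_left 2 ?_
  have h2 : ∑ g ∈ K, 2 ^ (h g : ℕ) = (K.biUnion (fun g => cell (h g : ℕ) (ss g))).card := by
    rw [Finset.card_biUnion]
    · refine Finset.sum_congr rfl fun g _ => ?_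
      rw [card_cell (le_of_lt (h g).2)]
    · intro g hg g' hg' hne
      change Disjoint (cell (h g : ℕ) (ss g)) (cell (h g' : ℕ) (ss g'))
      rw [Finset.disjoint_left]
      intro τ h3 h4
      exact hind g hg g' hg' (adj_of_common (hh g hg) (hh g' hg') hne h3 h4)
  rw [h2]
  have h5 : (univ : Finset (Fin A → Bool)).card = 2 ^ A := by
    rw [Finset.card_univ, Fintype.card_fun, Fintype.card_bool, Fintype.card_fin]
  rw [← h5]
  exact Finset.card_le_univ _

end

end Pool.Agent.H26.KP
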