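import Mathlib

set_option autoImplicit false
set_option linter.unusedSectionVars false

namespace Pool.Agent.H26.KP

open Finset

/-- paths: `A` coordinates in `Γ × B` and a remainder in `R` -/
abbrev Pth (A : ℕ) (Γ B R : Type) := (Fin A → Γ × B) × R

variable {A : ℕ} {Γ B R : Type}

/-- coordinates `≥ h` from `x`, the others (and the remainder) from `g` -/
def mix (h : ℕ) (x g : Pth A Γ B R) : Pth A Γ B R :=
  (fun i => if h ≤ (i : ℕ) then x.1 i else g.1 i, g.2)

theorem mix_fst (h : ℕ) (x g : Pth A Γ B R) (i : Fin A) :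
    (mix h x g).1 i = if h ≤ (i : ℕ) then x.1 i else g.1 i := rfl

theorem mix_swap (h : ℕ) (x g : Pth A Γ B R) : mix h (mix h x g) (mix h g x) = x := by
  refine Prod.ext (funext fun i => ?_) rfl
  simp only [mix]
  by_cases hi : h ≤ (i : ℕ) <;> simp [hi]

theorem mix_mix {h h' : ℕ} (hh : h ≤ h') (x g g' : Pth A Γ B R) :
    mix h' (mix h x g) g' = mix h' x g' := by
  refine Prod.ext (funext fun i => ?_) rfl
  simp only [mix]
  by_cases hi : h' ≤ (i : ℕ)
  · simp [hi, hh.trans hi]
  · simp [hi]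

/-- change coordinate `h` of `x` to `y` -/
def upd (h : Fin A) (y : Γ × B) (x : Pth A Γ B R) : Pth A Γ B R := (Function.update x.1 h y, x.2)

theorem upd_upd (h : Fin A) (y y' : Γ × B) (x : Pth A Γ B R) : upd h y (upd h y' x) = upd h y x := by
  simp [upd]

theorem upd_self (h : Fin A) (x : Pth A Γ B R) : upd h (x.1 h) x = x := by
  simp [upd]

@[simp] theorem upd_fst_same (h : Fin A) (y : Γ × B) (x : Pth A Γ B R) : (upd h y x).1 h = y := by
  simp [upd]

theorem upd_fst_ne {h i : Fin A} (hi : i ≠ h) (y : Γ × B) (x : Pth A Γ B R) :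
    (upd h y x).1 i = x.1 i := by
  simp [upd, hi]

theorem mix_succ (h : Fin A) (x g : Pth A Γ B R) :
    mix ((h : ℕ) + 1) x g = mix h (upd h (g.1 h) x) g := by
  refine Prod.ext (funext fun i => ?_) rfl
  simp only [mix]
  by_cases hi : i = h
  · subst hi; simp
  · have hne : (i : ℕ) ≠ h := fun e => hi (Fin.ext e)
    rw [upd_fst_ne hi]
    by_cases h1 : (h : ℕ) ≤ i
    · have : (h : ℕ) + 1 ≤ i := by omega
      simp [h1, this]
    · have : ¬ ((h : ℕ) + 1 ≤ i) := by omega
      simp [h1, this]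

theorem mix_upd_right (h : Fin A) (x g : Pth A Γ B R) (y : Γ × B) :
    mix h x (upd h y g) = mix h x g := by
  refine Prod.ext (funext fun i => ?_) rfl
  simp only [mix]
  by_cases hi : i = h
  · subst hi; simp
  · rw [upd_fst_ne hi]

theorem mix_upd_left {h : Fin A} {h' : ℕ} (hh : (h : ℕ) < h') (x g : Pth A Γ B R) (y : Γ × B) :
    mix h' (upd h y x) g = mix h' x g := by
  refine Prod.ext (funext fun i => ?_) rfl
  simp only [mix]
  by_cases hi : h' ≤ (i : ℕ)
  · have : i ≠ h := fun e => by subst e; omega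
    rw [upd_fst_ne this]
  · simp [hi]

variable [Fintype Γ] [Fintype B] [Fintype R] [DecidableEq Γ] [DecidableEq B]

theorem sum_mix (h : ℕ) (φ : Pth A Γ B R → ℝ) :
    ∑ x, ∑ g, φ (mix h x g) = (Fintype.card (Pth A Γ B R)) * ∑ x, φ x := by
  have h1 : ∑ x, ∑ g, φ (mix h x g) = ∑ q : Pth A Γ B R × Pth A Γ B R, φ (mix h q.1 q.2) := by
    exact (Fintype.sum_prod_type' (fun x g => φ (mix h x g))).symm
  have h2 : ∑ q : Pth A Γ B R × Pth A Γ B R, φ (mix h q.1 q.2) =
      ∑ q : Pth A Γ B R × Pth A Γ B R, φ q.1 := by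
    refine Fintype.sum_bijective (fun q => (mix h q.1 q.2, mix h q.2 q.1)) ?_ _ _ (fun q => rfl)
    refine Function.Involutive.bijective ?_
    intro q
    simp only [mix_swap]
  rw [h1, h2, Fintype.sum_prod_type' (fun (x _g : Pth A Γ B R) => φ x)]
  simp only [Finset.sum_const, Finset.card_univ, nsmul_eq_mul]
  rw [← Finset.mul_sum]

/-- average of `f` over the lower coordinates -/
noncomputable def avg (h : ℕ) (f : Pth A Γ B R → ℝ) (x : Pth A Γ B R) : ℝ :=
  (∑ g, f (mix h x g)) / Fintype.card (Pth A Γ B R)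

theorem avg_mix {h h' : ℕ} (hh : h ≤ h') (f : Pth A Γ B R → ℝ) (x g : Pth A Γ B R) :
    avg h' f (mix h x g) = avg h' f x := by
  unfold avg
  simp_rw [mix_mix hh]

theorem avg_nonneg (h : ℕ) {f : Pth A Γ B R → ℝ} (hf : ∀ x, 0 ≤ f x) (x : Pth A Γ B R) :
    0 ≤ avg h f x :=
  div_nonneg (Finset.sum_nonneg fun _ _ => hf _) (Nat.cast_nonneg _)

theorem avg_le_one (h : ℕ) {f : Pth A Γ B R → ℝ} (hf : ∀ x, f x ≤ 1) (x : Pth A Γ B R) :
    avg h f x ≤ 1 := by
  unfold avg
  have : Nonempty (Pth A Γ B R) := ⟨x⟩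
  have hc : (0 : ℝ) < Fintype.card (Pth A Γ B R) := by exact_mod_cast Fintype.card_pos
  rw [div_le_one hc]
  calc ∑ g, f (mix h x g) ≤ ∑ _g : Pth A Γ B R, (1 : ℝ) := Finset.sum_le_sum fun g _ => hf _
    _ = _ := by simp

theorem sum_mul_avg (h : ℕ) (f φ : Pth A Γ B R → ℝ) (hφ : ∀ x g, φ (mix h x g) = φ x) :
    ∑ x, φ x * avg h f x = ∑ x, φ x * f x := by
  rcases isEmpty_or_nonempty (Pth A Γ B R) with hE | hN
  · simp
  have hc : (Fintype.card (Pth A Γ B R) : ℝ) ≠ 0 := by
    exact_mod_cast Fintype.card_ne_zero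
  have h1 : ∑ x, φ x * avg h f x =
      (∑ x, ∑ g, (fun x => φ x * f x) (mix h x g)) / Fintype.card (Pth A Γ B R) := by
    rw [Finset.sum_div]
    refine Finset.sum_congr rfl fun x _ => ?_
    unfold avg
    rw [mul_div_assoc', Finset.mul_sum]
    simp only [hφ]
  rw [h1, sum_mix h (fun x => φ x * f x)]
  field_simp

/-- Doob's maximal inequality -/
theorem doob (f : Pth A Γ B R → ℝ) (hf : ∀ x, 0 ≤ f x) (lam : ℝ) :
    lam * ((univ.filter (fun x : Pth A Γ B R => ∃ h ≤ A, lam < avg h f x)).card : ℝ) ≤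
      ∑ x, f x := by
  classical
  -- decreasing induction
  have key : ∀ k ≤ A + 1,
      lam * ((univ.filter (fun x : Pth A Γ B R => ∃ h, k ≤ h ∧ h ≤ A ∧ lam < avg h f x)).card : ℝ) ≤
      ∑ x ∈ univ.filter (fun x : Pth A Γ B R => ∃ h, k ≤ h ∧ h ≤ A ∧ lam < avg h f x), f x := by
    intro k hk
    induction hk using Nat.decreasingInduction with
    | self =>
      have : (univ.filter (fun x : Pth A Γ B R => ∃ h, A + 1 ≤ h ∧ h ≤ A ∧ lam < avg h f x)) = ∅ := by
        ext x
        simp only [Finset.mem_filter, Finset.mem_univ, true_and, Finset.notMem_empty, iff_false]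
        rintro ⟨h, h1, h2, _⟩
        omega
      rw [this]
      simp
    | of_succ k hk ih =>
      set P : Pth A Γ B R → Prop := fun x => ∃ h, k + 1 ≤ h ∧ h ≤ A ∧ lam < avg h f x with hP
      set Q : Pth A Γ B R → Prop := fun x => ¬ P x ∧ lam < avg k f x with hQ
      have e : (univ.filter (fun x : Pth A Γ B R => ∃ h, k ≤ h ∧ h ≤ A ∧ lam < avg h f x)) =
          univ.filter P ∪ univ.filter Q := by
        ext x
        simp only [Finset.mem_filter, Finset.mem_univ, true_and, Finset.mem_union]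
        constructor
        · rintro ⟨h, h1, h2, h3⟩
          by_cases hp : P x
          · exact Or.inl hp
          · right
            refine ⟨hp, ?_⟩
            rcases Nat.eq_or_lt_of_le h1 with h4 | h4
            · rw [h4]; exact h3
            · exact absurd ⟨h, h4, h2, h3⟩ hp
        · rintro (⟨h, h1, h2, h3⟩ | ⟨_, h3⟩)
          · exact ⟨h, by omega, h2, h3⟩
          · exact ⟨k, le_rfl, by omega, h3⟩
      have hdis : Disjoint (univ.filter P) (univ.filter Q) := by
        rw [Finset.disjoint_left]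
        intro x h1 h2
        rw [Finset.mem_filter] at h1 h2
        exact h2.2.1 h1.2
      rw [e, Finset.card_union_of_disjoint hdis, Finset.sum_union hdis]
      push_cast
      rw [mul_add]
      refine add_le_add ih ?_
      have hPm : ∀ x g, P (mix k x g) ↔ P x := by
        intro x g
        simp only [hP]
        constructor
        · rintro ⟨h, h1, h2, h3⟩
          exact ⟨h, h1, h2, by rwa [avg_mix (by omega)] at h3⟩
        · rintro ⟨h, h1, h2, h3⟩
          exact ⟨h, h1, h2, by rwa [avg_mix (by omega)]⟩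
      have hQm : ∀ x g, Q (mix k x g) ↔ Q x := by
        intro x g
        simp only [hQ, hPm, avg_mix le_rfl]
      have h1 := sum_mul_avg k f (fun x => if Q x then (1 : ℝ) else 0) (by
        intro x g
        by_cases hq : Q x
        · have : Q (mix k x g) := (hQm x g).2 hq
          simp [hq, this]
        · have : ¬ Q (mix k x g) := fun h => hq ((hQm x g).1 h)
          simp [hq, this])
      simp only [ite_mul, one_mul, zero_mul] at h1
      rw [← Finset.sum_filter, ← Finset.sum_filter] at h1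
      rw [← h1]
      calc lam * ((univ.filter Q).card : ℝ) = ∑ x ∈ univ.filter Q, lam := by
            rw [Finset.sum_const, nsmul_eq_mul, mul_comm]
        _ ≤ _ := by
            refine Finset.sum_le_sum fun x hx => ?_
            rw [Finset.mem_filter] at hx
            exact hx.2.2.le
  have h0 := key 0 (Nat.zero_le _)
  simp only [Nat.zero_le, true_and] at h0
  refine h0.trans ?_
  exact Finset.sum_le_univ_sum_of_nonneg hf

end Pool.Agent.H26.KP
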