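import Pool.Agent.helper26.KP.Det2
import Pool.Agent.EGT.Prob

set_option autoImplicit false
set_option linter.unusedSectionVars false

namespace Pool.Agent.H26.KP

open Finset

variable {F : Type} [Field F] [Fintype F] [DecidableEq F] {A I : ℕ}

theorem memb_eq (w : Fin A → Gam F) (e : Enb F A I) (h : Fin A) (γ : Gam F) (σ : Fin A → Bool)
    (c0 : Fin I) :
    memb w e h γ σ = mix h (pth (Function.update w h γ) σ c0) (e (h, γ, rep h σ)) := rfl

theorem pr_eq_avg (T : Finset (Kil F A I)) (h : ℕ) (x : Kil F A I) :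
    EGT.pr (fun g : Kil F A I => mix h x g ∈ T) = avg h (ind T) x := by
  unfold EGT.pr EGT.ex avg
  congr 1
  refine Finset.sum_congr rfl fun g _ => ?_
  unfold EGT.ind ind
  by_cases hg : mix h x g ∈ T <;> simp [hg]

/-- one bad event of the enabling function -/
theorem bad_one {Sh : Fin A → Finset F} (hSh : ∀ i, (Sh i).card = 2 ^ (i : ℕ))
    (hF : 2 ≤ Fintype.card F)
    (T : Finset (Kil F A I)) (w : Fin A → Gam F) (c0 : Fin I) (h : Fin A) (σ : Fin A → Bool)
    (s : F) (hs : s ∉ Bset Sh T w c0 h σ) :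
    EGT.pr (fun e : Enb F A I => ∀ γ, s ∈ blk (Sh h) γ → memb w e h γ σ ∈ T) ≤
      Real.exp (-((Fintype.card F : ℝ) - 1) / 2) := by
  have hN : Nonempty (Kil F A I) := ⟨pth w σ c0⟩
  set Γs : Finset (Gam F) := univ.filter (fun γ : Gam F => s ∈ blk (Sh h) γ) with hΓs
  set I0 : Finset (Fin A × Gam F × (Fin A → Bool)) := Γs.image (fun γ => (h, γ, rep h σ)) with hI0
  have hinj : Set.InjOn (fun γ : Gam F => (h, γ, rep h σ)) (Γs : Set (Gam F)) := by
    intro a _ b _ hab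
    simp only [Prod.mk.injEq, and_true, true_and] at hab
    exact hab
  have hF1 : 1 ≤ Fintype.card F := by omega
  have h1 : EGT.pr (fun e : Enb F A I => ∀ γ, s ∈ blk (Sh h) γ → memb w e h γ σ ∈ T) ≤
      EGT.pr (fun e : Enb F A I => ∀ i ∈ I0,
        (fun (i : Fin A × Gam F × (Fin A → Bool)) (g : Kil F A I) =>
          mix h (pth (Function.update w h i.2.1) σ c0) g ∈ T) i (e i)) := by
    refine EGT.pr_mono fun e he i hi => ?_
    rw [hI0, Finset.mem_image] at hi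
    obtain ⟨γ, hγ, rfl⟩ := hi
    have := he γ (Finset.mem_filter.1 hγ).2
    rw [memb_eq w e h γ σ c0] at this
    exact this
  refine h1.trans ?_
  rw [EGT.pr_pi_all_mem I0 (fun (i : Fin A × Gam F × (Fin A → Bool)) (g : Kil F A I) =>
          mix h (pth (Function.update w h i.2.1) σ c0) g ∈ T), hI0, Finset.prod_image hinj]
  simp only [pr_eq_avg]
  have h2 : ∑ γ ∈ Γs, phi T w c0 h σ γ ≤ ((Γs.card : ℕ) : ℝ) / 2 := by
    rw [hΓs, card_inc]
    have h1 : ¬ (((Sh h).card * (Fintype.card F - 1) : ℝ) / 2 < thru (Sh h) (phi T w c0 h σ) s) := by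
      intro hcon
      apply hs
      unfold Bset
      rw [Finset.mem_filter]
      exact ⟨Finset.mem_univ _, hcon⟩
    push Not at h1
    unfold thru at h1
    push_cast [Nat.cast_sub hF1]
    exact h1
  calc ∏ γ ∈ Γs, avg h (ind T) (pth (Function.update w h γ) σ c0)
      ≤ ∏ γ ∈ Γs, Real.exp (phi T w c0 h σ γ - 1) := by
        refine Finset.prod_le_prod (fun γ _ => phi_nonneg T w c0 h σ γ) fun γ _ => ?_
        have := Real.add_one_le_exp (phi T w c0 h σ γ - 1)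
        change phi T w c0 h σ γ ≤ _
        linarith
    _ = Real.exp (∑ γ ∈ Γs, (phi T w c0 h σ γ - 1)) := (Real.exp_sum _ _).symm
    _ ≤ _ := by
        refine Real.exp_le_exp.2 ?_
        rw [Finset.sum_sub_distrib, Finset.sum_const, nsmul_eq_mul, mul_one]
        have h3 : ((Γs.card : ℕ) : ℝ) = 2 ^ (h : ℕ) * ((Fintype.card F : ℝ) - 1) := by
          rw [hΓs, card_inc, hSh]
          push_cast [Nat.cast_sub hF1]
          ring
        have h5 : (1 : ℝ) ≤ 2 ^ (h : ℕ) := one_le_pow₀ (by norm_num)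
        have h6 : (1 : ℝ) ≤ Fintype.card F := by exact_mod_cast hF1
        nlinarith

/-- the proportion of bad enabling functions -/
theorem bad_e {Sh : Fin A → Finset F} (hSh : ∀ i, (Sh i).card = 2 ^ (i : ℕ))
    (hF : 2 ≤ Fintype.card F)
    (T : Finset (Kil F A I)) (w : Fin A → Gam F) (c0 : Fin I) :
    EGT.pr (fun e : Enb F A I => ¬ GoodE Sh T w c0 e) ≤
      ((A : ℝ) * 2 ^ A * Fintype.card F) * Real.exp (-((Fintype.card F : ℝ) - 1) / 2) := by
  have h1 : EGT.pr (fun e : Enb F A I => ¬ GoodE Sh T w c0 e) ≤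
      EGT.pr (fun e : Enb F A I => ∃ q ∈ (univ : Finset (Fin A × (Fin A → Bool) × F)),
        (fun (q : Fin A × (Fin A → Bool) × F) (e : Enb F A I) =>
        q.2.2 ∉ Bset Sh T w c0 q.1 q.2.1 ∧ ∀ γ, q.2.2 ∈ blk (Sh q.1) γ →
        memb w e q.1 γ q.2.1 ∈ T) q e) := by
    refine EGT.pr_mono fun e he => ?_
    unfold GoodE at he
    push Not at he
    obtain ⟨h, σ, s, h3, h4, h5, h6⟩ := he
    exact ⟨(h, σ, s), Finset.mem_univ _, h5, h6⟩
  refine h1.trans ((EGT.pr_exists_le _ _ (b := Real.exp (-((Fintype.card F : ℝ) - 1) / 2)) ?_).trans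
    (le_of_eq ?_))
  · intro q _
    by_cases hq : q.2.2 ∉ Bset Sh T w c0 q.1 q.2.1
    · refine le_trans (EGT.pr_mono fun e he => ?_) (bad_one hSh hF T w c0 q.1 q.2.1 q.2.2 hq)
      exact he.2
    · refine le_trans (EGT.ex_le_of_le (c := 0) le_rfl fun e => ?_) (Real.exp_pos _).le
      rw [EGT.ind_neg (fun hc => hq hc.1)]
  · rw [Finset.card_univ, Fintype.card_prod, Fintype.card_prod, Fintype.card_fun,
      Fintype.card_bool, Fintype.card_fin]
    push_cast; ring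

/-- the numerical estimate -/
theorem num_e {q A : ℕ} (hq : q = 16 * 2 ^ A) (hA : 1 ≤ A) :
    ((A : ℝ) * 2 ^ A * q) * Real.exp (-((q : ℝ) - 1) / 2) ≤ 1 / 4 := by
  have h1 : (A : ℝ) ≤ 2 ^ A := by
    exact_mod_cast (Nat.lt_two_pow_self (n := A)).le
  have h2 : (q : ℝ) = 16 * 2 ^ A := by rw [hq]; push_cast; ring
  have h3 : (2 : ℝ) ^ A = q / 16 := by rw [h2]; ring
  have h4 : (32 : ℝ) ≤ q := by
    have : (2 : ℝ) ≤ 2 ^ A := by
      calc (2 : ℝ) = 2 ^ 1 := by norm_num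
        _ ≤ 2 ^ A := pow_le_pow_right₀ (by norm_num) hA
    rw [h2]; linarith
  have h5 : (A : ℝ) * 2 ^ A * q ≤ (q : ℝ) ^ 3 / 256 := by
    rw [h3] at h1 ⊢
    have : (A : ℝ) * (q / 16) * q ≤ (q / 16) * (q / 16) * q := by
      refine mul_le_mul_of_nonneg_right (mul_le_mul_of_nonneg_right h1 ?_) ?_ <;> positivity
    refine this.trans (le_of_eq ?_)
    ring
  have h6 : (q : ℝ) ^ 3 ≤ 64 * Real.exp (((q : ℝ) - 1) / 2) := by
    have h7 := Real.pow_div_factorial_le_exp (((q : ℝ) - 1) / 2) (by linarith) 4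
    have h8 : (31 / 64 * q : ℝ) ≤ ((q : ℝ) - 1) / 2 := by linarith
    have h9 : (31 / 64 * q : ℝ) ^ 4 ≤ (((q : ℝ) - 1) / 2) ^ 4 :=
      pow_le_pow_left₀ (by positivity) h8 4
    have h10 : ((4 : ℕ).factorial : ℝ) = 24 := by norm_num [Nat.factorial]
    rw [h10] at h7
    have h11 : (q : ℝ) ^ 3 * 32 ≤ q ^ 4 := by
      have : (0 : ℝ) ≤ (q : ℝ) ^ 3 := by positivity
      nlinarith
    have h12 : (31 / 64 * q : ℝ) ^ 4 = (31 / 64) ^ 4 * (q : ℝ) ^ 4 := by ring
    rw [h12] at h9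
    norm_num at h9
    have h14 : (0 : ℝ) ≤ (q : ℝ) ^ 3 := by positivity
    have h15 : (q : ℝ) ^ 4 * (923521 / 16777216) / 24 ≤ Real.exp (((q : ℝ) - 1) / 2) := by
      refine le_trans ?_ h7
      linarith
    have h16 : (q : ℝ) ^ 3 ≤ 64 * ((q : ℝ) ^ 4 * (923521 / 16777216) / 24) := by
      linarith
    linarith
  have h13 : Real.exp (-((q : ℝ) - 1) / 2) = (Real.exp (((q : ℝ) - 1) / 2))⁻¹ := by
    rw [← Real.exp_neg]; congr 1; ring
  have hE : (0 : ℝ) < Real.exp (((q : ℝ) - 1) / 2) := Real.exp_pos _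
  rw [h13, ← div_eq_mul_inv, div_le_iff₀ hE]
  linarith

end Pool.Agent.H26.KP
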