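import Pool.Agent.helper26.KP.ProbE

set_option autoImplicit false
set_option linter.unusedSectionVars false

namespace Pool.Agent.H26.KP

open Finset

variable {F : Type} [Field F] [Fintype F] [DecidableEq F] {A I : ℕ}

theorem avg'_copy (T : Finset (Kil F A I)) (w : Fin A → Gam F) (c c0 : Fin I) (h : Fin A)
    (σ : Fin A → Bool) :
    avg' h (ind T) (pth w σ c) = avg' h (ind T) (pth w σ c0) := by
  rw [avg'_pth, avg'_pth]
  rfl

theorem VarS_copy (T : Finset (Kil F A I)) (w : Fin A → Gam F) (c c0 : Fin I) (h : Fin A)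
    (σ : Fin A → Bool) : VarS T w c h σ = VarS T w c0 h σ := by
  unfold VarS
  rw [avg'_copy T w c c0]
  rfl

theorem sum_VarS (T : Finset (Kil F A I)) (c0 : Fin I) (h : Fin A) :
    ∑ x : Kil F A I, VarS T (vv x) c0 h (ss x) =
      ∑ x : Kil F A I, (avg h (ind T) x - avg' h (ind T) x) ^ 2 := by
  have hc := cardΓ_pos (F := F)
  have h1 := sum_updG h (fun x : Kil F A I => (avg h (ind T) x - avg' h (ind T) x) ^ 2)
  have h2 : ∀ x : Kil F A I, ∑ γ : Gam F,
      (fun x : Kil F A I => (avg h (ind T) x - avg' h (ind T) x) ^ 2) (upd h (γ, (x.1 h).2) x) =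
      Fintype.card (Gam F) * VarS T (vv x) c0 h (ss x) := by
    intro x
    rw [← VarS_copy T (vv x) x.2 c0]
    unfold VarS
    rw [mul_div_cancel₀ _ hc.ne']
    refine Finset.sum_congr rfl fun γ _ => ?_
    simp only [avg'_updG]
    have e1 : upd h (γ, (x.1 h).2) x = pth (Function.update (vv x) h γ) (ss x) x.2 :=
      upd_pth (vv x) (ss x) x.2 h γ
    rw [e1]
    rfl
  rw [Finset.sum_congr rfl (fun x _ => h2 x), ← Finset.mul_sum] at h1
  exact mul_left_cancel₀ hc.ne' h1

/-- the splitting of the killers -/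
def kilEquiv : Kil F A I ≃ (Fin A → Gam F) × ((Fin A → Bool) × Fin I) where
  toFun x := (vv x, (ss x, x.2))
  invFun q := pth q.1 q.2.1 q.2.2
  left_inv _ := rfl
  right_inv _ := rfl

theorem ex_kil (φ : Kil F A I → ℝ) :
    EGT.ex φ = EGT.ex (fun w => EGT.ex (fun σ => EGT.ex (fun c => φ (pth w σ c)))) := by
  have h1 := EGT.ex_equiv (kilEquiv (F := F) (A := A) (I := I)).symm φ
  rw [← h1, EGT.ex_prod]
  congr 1
  funext w
  rw [EGT.ex_prod]
  rfl

/-- the proportion of atypical `w` -/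
theorem bad_w (T : Finset (Kil F A I)) (c0 : Fin I)
    (hT : T.card * 2 ^ 19 ≤ Fintype.card (Kil F A I)) :
    EGT.pr (fun w : Fin A → Gam F => ¬ GoodW T w c0) ≤ 1 / 8 := by
  classical
  have hN : Nonempty (Kil F A I) := ⟨pth (fun _ => (1, 0)) (fun _ => false) c0⟩
  have hNI : Nonempty (Fin I) := ⟨c0⟩
  have hc : (0 : ℝ) < Fintype.card (Kil F A I) := by exact_mod_cast Fintype.card_pos
  have hslots : (Fintype.card (Fin A → Bool)) = 2 ^ A := by
    rw [Fintype.card_fun, Fintype.card_bool, Fintype.card_fin]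
  set τ : ℝ := (T.card : ℝ) / Fintype.card (Kil F A I) with hτ
  have hτ1 : τ ≤ 1 / 2 ^ 19 := by
    rw [hτ, div_le_div_iff₀ hc (by positivity)]
    have : ((T.card * 2 ^ 19 : ℕ) : ℝ) ≤ Fintype.card (Kil F A I) := by exact_mod_cast hT
    push_cast at this
    linarith
  have hsT : ∑ x : Kil F A I, ind T x = T.card := by
    simp [ind]
  -- blocked part
  set pB : (Fin A → Gam F) → ℝ := fun w => EGT.pr (fun σ => blocked T w c0 0 σ) with hpB
  have hB : EGT.ex pB ≤ 128 * τ := by
    have h1 := doob (ind T) (ind_nonneg T) (1 / 128)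
    rw [hsT] at h1
    have h2 : EGT.pr (fun x : Kil F A I => ∃ h ≤ A, (1 / 128 : ℝ) < avg h (ind T) x) =
        EGT.ex pB := by
      unfold EGT.pr
      rw [ex_kil]
      congr 1
      funext w
      simp only [hpB]
      unfold EGT.pr
      congr 1
      funext σ
      have h3 : (fun c : Fin I => EGT.ind (∃ h ≤ A, (1 / 128 : ℝ) < avg h (ind T) (pth w σ c))) =
          fun _ : Fin I => EGT.ind (blocked T w c0 0 σ) := by
        funext c
        have : (∃ h ≤ A, (1 / 128 : ℝ) < avg h (ind T) (pth w σ c)) ↔ blocked T w c0 0 σ := by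
          unfold blocked
          refine exists_congr fun h => ?_
          constructor
          · rintro ⟨h1, h2⟩
            exact ⟨Nat.zero_le _, h1, h2⟩
          · rintro ⟨_, h1, h2⟩
            exact ⟨h1, h2⟩
        by_cases hb : blocked T w c0 0 σ
        · rw [EGT.ind_pos hb, EGT.ind_pos (this.2 hb)]
        · rw [EGT.ind_neg hb, EGT.ind_neg (fun hh => hb (this.1 hh))]
      rw [h3, EGT.ex_const]
    rw [← h2, EGT.pr_eq_card, hτ, mul_div_assoc', div_le_div_iff_of_pos_right hc]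
    have h4 := h1
    linarith
  -- energy part
  set VS : (Fin A → Gam F) → ℝ := fun w => EGT.ex (fun σ => ∑ h : Fin A, VarS T w c0 h σ) with hVS
  have hV : EGT.ex VS ≤ τ := by
    have h1 := energy (ind T)
    have h2 : ∑ x : Kil F A I, ind T x ^ 2 = T.card := by
      rw [← hsT]
      refine Finset.sum_congr rfl fun x _ => ?_
      unfold ind
      split_ifs <;> norm_num
    rw [h2] at h1
    have h3 : EGT.ex (fun x : Kil F A I => ∑ h : Fin A, VarS T (vv x) c0 h (ss x)) = EGT.ex VS := by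
      rw [ex_kil]
      congr 1
      funext w
      simp only [hVS, vv_pth, ss_pth]
      congr 1
      funext σ
      rw [EGT.ex_const]
    rw [← h3]
    unfold EGT.ex
    rw [hτ, div_le_div_iff_of_pos_right hc, Finset.sum_comm]
    simp_rw [sum_VarS]
    exact h1
  have hpB0 : ∀ w, 0 ≤ pB w := fun w => EGT.pr_nonneg _
  have hVS0 : ∀ w, 0 ≤ VS w := fun w => EGT.ex_nonneg fun σ =>
    Finset.sum_nonneg fun h _ => VarS_nonneg T w c0 h σ
  have m1 := EGT.pr_markov hpB0 (a := 1 / 8) (by norm_num)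
  have m2 := EGT.pr_markov hVS0 (a := 1 / 2 ^ 15) (by norm_num)
  have h5 : EGT.pr (fun w : Fin A → Gam F => ¬ GoodW T w c0) ≤
      EGT.pr (fun w : Fin A → Gam F => (1 / 8 : ℝ) ≤ pB w ∨ (1 / 2 ^ 15 : ℝ) ≤ VS w) := by
    refine EGT.pr_mono fun w hw => ?_
    by_contra hcon
    push Not at hcon
    apply hw
    refine ⟨?_, ?_⟩
    · have h6 := hcon.1
      simp only [hpB] at h6
      rw [EGT.pr_eq_card, hslots, div_lt_div_iff₀ (by positivity) (by norm_num)] at h6
      have h7 : ((8 * (univ.filter (fun σ : Fin A → Bool => blocked T w c0 0 σ)).card : ℕ) : ℝ) <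
          ((2 ^ A : ℕ) : ℝ) := by
        push_cast at h6 ⊢
        linarith
      have h8 : 8 * (univ.filter (fun σ : Fin A → Bool => blocked T w c0 0 σ)).card < 2 ^ A := by
        exact_mod_cast h7
      exact h8.le
    · have h6 := hcon.2
      simp only [hVS] at h6
      unfold EGT.ex at h6
      rw [hslots, Finset.sum_comm, div_lt_div_iff₀ (by positivity) (by norm_num)] at h6
      push_cast at h6
      rw [le_div_iff₀ (by positivity)]
      linarith
  refine h5.trans ((EGT.pr_or _ _).trans ?_)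
  have m1' : EGT.ex pB / (1 / 8) ≤ 2 ^ 10 * τ := by
    rw [div_le_iff₀ (by norm_num)]
    linarith
  have m2' : EGT.ex VS / (1 / 2 ^ 15) ≤ 2 ^ 15 * τ := by
    rw [div_le_iff₀ (by norm_num)]
    linarith
  have : 2 ^ 10 * τ + 2 ^ 15 * τ ≤ 1 / 8 := by
    have : 2 ^ 10 * τ + 2 ^ 15 * τ = 33792 * τ := by ring
    rw [this]
    calc 33792 * τ ≤ 33792 * (1 / 2 ^ 19) := by linarith
      _ ≤ 1 / 8 := by norm_num
  linarith

end Pool.Agent.H26.KP
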