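import Pool.Agent.helper26.KP.Mart
import Pool.Agent.helper26.KP.Design

set_option autoImplicit false
set_option linter.unusedSectionVars false

namespace Pool.Agent.H26.KP

open Finset

/-! ## slots and cells -/

/-- the cell of height `h` of a slot -/
def cell {A : ℕ} (h : ℕ) (σ : Fin A → Bool) : Finset (Fin A → Bool) :=
  univ.filter (fun τ => ∀ i : Fin A, h ≤ (i : ℕ) → τ i = σ i)

theorem mem_cell {A : ℕ} {h : ℕ} {σ τ : Fin A → Bool} :
    τ ∈ cell h σ ↔ ∀ i : Fin A, h ≤ (i : ℕ) → τ i = σ i := by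
  simp [cell]

theorem self_mem_cell {A : ℕ} (h : ℕ) (σ : Fin A → Bool) : σ ∈ cell h σ :=
  mem_cell.2 fun _ _ => rfl

theorem mem_cell_symm {A : ℕ} {h : ℕ} {σ τ : Fin A → Bool} (ht : τ ∈ cell h σ) : σ ∈ cell h τ :=
  mem_cell.2 fun i hi => (mem_cell.1 ht i hi).symm

theorem mem_cell_trans {A : ℕ} {h : ℕ} {σ τ ρ : Fin A → Bool} (h1 : τ ∈ cell h σ)
    (h2 : ρ ∈ cell h τ) : ρ ∈ cell h σ :=
  mem_cell.2 fun i hi => (mem_cell.1 h2 i hi).trans (mem_cell.1 h1 i hi)

theorem mem_cell_mono {A : ℕ} {h h' : ℕ} (hh : h ≤ h') {σ τ : Fin A → Bool}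
    (h1 : τ ∈ cell h σ) : τ ∈ cell h' σ :=
  mem_cell.2 fun i hi => mem_cell.1 h1 i (hh.trans hi)

theorem card_cell {A : ℕ} {h : ℕ} (hh : h ≤ A) (σ : Fin A → Bool) : (cell h σ).card = 2 ^ h := by
  have e : cell h σ = Fintype.piFinset (fun i : Fin A => if h ≤ (i : ℕ) then {σ i} else univ) := by
    ext τ
    rw [mem_cell, Fintype.mem_piFinset]
    refine forall_congr' fun i => ?_
    by_cases hi : h ≤ (i : ℕ) <;> simp [hi]
  rw [e, Fintype.card_piFinset]
  have e2 : ∀ i : Fin A, (if h ≤ (i : ℕ) then ({σ i} : Finset Bool) else univ).card =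
      if (i : ℕ) < h then 2 else 1 := by
    intro i
    by_cases hi : h ≤ (i : ℕ)
    · have : ¬ ((i : ℕ) < h) := by omega
      simp [hi, this]
    · have : (i : ℕ) < h := by omega
      simp [hi, this]
  simp_rw [e2]
  rw [Fin.prod_univ_eq_prod_range (fun i => if i < h then 2 else 1) A,
    ← Finset.prod_filter_mul_prod_filter_not (Finset.range A) (fun i => i < h)]
  rw [Finset.prod_congr rfl (g := fun _ => 2) (fun i hi => by
    rw [Finset.mem_filter] at hi; simp [hi.2])]
  rw [Finset.prod_congr (s₁ := (Finset.range A).filter (fun i => ¬ i < h)) rfl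
    (g := fun _ => 1) (fun i hi => by rw [Finset.mem_filter] at hi; simp [hi.2])]
  rw [Finset.prod_const, Finset.prod_const_one, mul_one]
  congr 1
  have : (Finset.range A).filter (fun i => i < h) = Finset.range h := by
    ext i
    simp only [Finset.mem_filter, Finset.mem_range]
    omega
  rw [this, Finset.card_range]

/-- cells are nested or disjoint -/
theorem cell_disj_of_not_mem {A : ℕ} {h h' : ℕ} (hh : h' ≤ h) {σ σ' : Fin A → Bool}
    (hn : σ' ∉ cell h σ) : Disjoint (cell h σ) (cell h' σ') := by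
  rw [Finset.disjoint_left]
  intro τ h1 h2
  exact hn (mem_cell_trans h1 (mem_cell_symm (mem_cell_mono hh h2)))

/-- canonical representative of a cell -/
def rep {A : ℕ} (h : ℕ) (σ : Fin A → Bool) : Fin A → Bool := fun i => if h ≤ (i : ℕ) then σ i else false

theorem rep_mem {A : ℕ} (h : ℕ) (σ : Fin A → Bool) : rep h σ ∈ cell h σ :=
  mem_cell.2 fun i hi => by simp [rep, hi]

theorem rep_eq {A : ℕ} {h : ℕ} {σ τ : Fin A → Bool} (ht : τ ∈ cell h σ) : rep h τ = rep h σ := by
  funext i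
  unfold rep
  by_cases hi : h ≤ (i : ℕ)
  · simp [hi, mem_cell.1 ht i hi]
  · simp [hi]

/-! ## killers -/

/-- killers -/
abbrev Kil (F : Type) [Field F] (A I : ℕ) := Pth A (Gam F) Bool (Fin I)

section
variable {F : Type} [Field F] {A I : ℕ}

/-- the affine coordinates -/
def vv (g : Kil F A I) : Fin A → Gam F := fun i => (g.1 i).1
/-- the slot -/
def ss (g : Kil F A I) : Fin A → Bool := fun i => (g.1 i).2

theorem kil_ext {g g' : Kil F A I} (h1 : vv g = vv g') (h2 : ss g = ss g') (h3 : g.2 = g'.2) :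
    g = g' := by
  refine Prod.ext (funext fun i => Prod.ext ?_ ?_) h3
  · exact congrFun h1 i
  · exact congrFun h2 i

/-- the path with affine coordinates `w`, slot `σ`, copy `c` -/
def pth (w : Fin A → Gam F) (σ : Fin A → Bool) (c : Fin I) : Kil F A I := (fun i => (w i, σ i), c)

@[simp] theorem vv_pth (w : Fin A → Gam F) (σ : Fin A → Bool) (c : Fin I) : vv (pth w σ c) = w := rfl
@[simp] theorem ss_pth (w : Fin A → Gam F) (σ : Fin A → Bool) (c : Fin I) : ss (pth w σ c) = σ := rfl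

theorem pth_eta (g : Kil F A I) : pth (vv g) (ss g) g.2 = g := rfl

/-- adjacency of killers at height `b` -/
def AdjAt (b : Fin A) (g g' : Kil F A I) : Prop :=
  vv g b ≠ vv g' b ∧ (∀ i : Fin A, b < i → vv g i = vv g' i) ∧
    (∀ i : Fin A, b ≤ i → ss g i = ss g' i)

/-- the graph on the killers -/
def HG (F : Type) [Field F] (A I : ℕ) : SimpleGraph (Kil F A I) where
  Adj g g' := ∃ b, AdjAt b g g'
  symm := ⟨fun _ _ h => by
    obtain ⟨b, h1, h2, h3⟩ := h
    exact ⟨b, h1.symm, fun i hi => (h2 i hi).symm, fun i hi => (h3 i hi).symm⟩⟩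
  loopless := ⟨fun _ h => by
    obtain ⟨b, h1, _, _⟩ := h
    exact h1 rfl⟩

/-- enabling functions -/
abbrev Enb (F : Type) [Field F] (A I : ℕ) := (Fin A × Gam F × (Fin A → Bool)) → Kil F A I

/-- the enabled member of the class `(h, γ, cell of σ)` in the context `(w, e)` -/
def memb (w : Fin A → Gam F) (e : Enb F A I) (h : Fin A) (γ : Gam F) (σ : Fin A → Bool) :
    Kil F A I :=
  mix h (pth (Function.update w h γ) σ (e (h, γ, rep h σ)).2) (e (h, γ, rep h σ))

theorem memb_eq_of_cell {w : Fin A → Gam F} {e : Enb F A I} {h : Fin A} {γ : Gam F}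
    {σ τ : Fin A → Bool} (hτ : τ ∈ cell h σ) : memb w e h γ τ = memb w e h γ σ := by
  unfold memb
  rw [rep_eq hτ]
  refine Prod.ext (funext fun i => ?_) rfl
  rw [mix_fst, mix_fst]
  by_cases hi : (h : ℕ) ≤ i
  · simp only [hi, if_true, pth]
    rw [mem_cell.1 hτ i hi]
  · simp [hi]

theorem vv_memb_gt {w : Fin A → Gam F} {e : Enb F A I} {h : Fin A} {γ : Gam F}
    {σ : Fin A → Bool} {i : Fin A} (hi : h < i) : vv (memb w e h γ σ) i = w i := by
  unfold memb vv
  rw [mix_fst, if_pos (show (h : ℕ) ≤ i from le_of_lt hi)]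
  simp only [pth]
  rw [Function.update_of_ne (ne_of_gt hi)]

theorem vv_memb_self {w : Fin A → Gam F} {e : Enb F A I} {h : Fin A} {γ : Gam F}
    {σ : Fin A → Bool} : vv (memb w e h γ σ) h = γ := by
  unfold memb vv
  rw [mix_fst, if_pos le_rfl]
  simp only [pth]
  rw [Function.update_self]

theorem ss_memb {w : Fin A → Gam F} {e : Enb F A I} {h : Fin A} {γ : Gam F}
    {σ : Fin A → Bool} {i : Fin A} (hi : h ≤ i) : ss (memb w e h γ σ) i = σ i := by
  unfold memb ss
  rw [mix_fst, if_pos (show (h : ℕ) ≤ i from hi)]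
  rfl

theorem ss_memb_mem_cell {w : Fin A → Gam F} {e : Enb F A I} {h : Fin A} {γ : Gam F}
    {σ : Fin A → Bool} : ss (memb w e h γ σ) ∈ cell h σ :=
  mem_cell.2 fun _ hi => ss_memb hi

/-- `g` is alive with role height `h` in the context `(w, e)` -/
def RoleAt (w : Fin A → Gam F) (e : Enb F A I) (h : Fin A) (g : Kil F A I) : Prop :=
  vv g h ≠ w h ∧ g = memb w e h (vv g h) (ss g)

theorem roleAt_memb {w : Fin A → Gam F} {e : Enb F A I} {h : Fin A} {γ : Gam F}
    {σ : Fin A → Bool} (hγ : γ ≠ w h) : RoleAt w e h (memb w e h γ σ) := by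
  refine ⟨?_, ?_⟩
  · rw [vv_memb_self]; exact hγ
  · rw [vv_memb_self]
    exact (memb_eq_of_cell ss_memb_mem_cell).symm

theorem RoleAt.gt {w : Fin A → Gam F} {e : Enb F A I} {h : Fin A} {g : Kil F A I}
    (hg : RoleAt w e h g) {i : Fin A} (hi : h < i) : vv g i = w i := by
  rw [hg.2]; exact vv_memb_gt hi

/-- two distinct alive killers whose cells have a common slot are adjacent -/
theorem adj_of_common {w : Fin A → Gam F} {e : Enb F A I} {h h' : Fin A} {g g' : Kil F A I}
    (hg : RoleAt w e h g) (hg' : RoleAt w e h' g') (hne : g ≠ g') {τ : Fin A → Bool}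
    (h1 : τ ∈ cell h (ss g)) (h2 : τ ∈ cell h' (ss g')) : (HG F A I).Adj g g' := by
  rcases lt_trichotomy h h' with hlt | heq | hgt
  · refine ⟨h', ?_, ?_, ?_⟩
    · rw [hg.gt hlt]; exact hg'.1.symm
    · intro i hi
      rw [hg.gt (hlt.trans hi), hg'.gt hi]
    · intro i hi
      rw [← mem_cell.1 h1 i (show (h : ℕ) ≤ i from le_of_lt (lt_of_lt_of_le hlt hi)),
        mem_cell.1 h2 i hi]
  · subst heq
    have hcell : ss g' ∈ cell h (ss g) := mem_cell_trans h1 (mem_cell_symm h2)
    refine ⟨h, ?_, ?_, ?_⟩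
    · intro hv
      apply hne
      rw [hg.2, hg'.2, hv]
      exact (memb_eq_of_cell hcell).symm
    · intro i hi
      rw [hg.gt hi, hg'.gt hi]
    · intro i hi
      rw [mem_cell.1 hcell i hi]
  · refine ⟨h, ?_, ?_, ?_⟩
    · rw [hg'.gt hgt]; exact hg.1
    · intro i hi
      rw [hg'.gt (hgt.trans hi), hg.gt hi]
    · intro i hi
      rw [← mem_cell.1 h2 i (show (h' : ℕ) ≤ i from le_of_lt (lt_of_lt_of_le hgt hi)),
        mem_cell.1 h1 i hi]

/-- alive killers with disjoint cells are not adjacent -/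
theorem not_adj_of_disj {w : Fin A → Gam F} {e : Enb F A I} {h h' : Fin A} {g g' : Kil F A I}
    (hg : RoleAt w e h g) (hg' : RoleAt w e h' g')
    (hd : Disjoint (cell h (ss g)) (cell h' (ss g'))) : ¬ (HG F A I).Adj g g' := by
  rintro ⟨b, hb1, hb2, hb3⟩
  rw [Finset.disjoint_left] at hd
  rcases lt_trichotomy h h' with hlt | heq | hgt
  · have hb : b = h' := by
      rcases lt_trichotomy b h' with h1 | h1 | h1
      · exact absurd ((hb2 h' h1).symm.trans (hg.gt hlt)) hg'.1
      · exact h1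
      · exact absurd ((hg.gt (hlt.trans h1)).trans (hg'.gt h1).symm) hb1
    subst hb
    exact hd (self_mem_cell _ _) (mem_cell.2 fun i hi => hb3 i hi)
  · subst heq
    have hb : b ≤ h := by
      by_contra hcon
      push Not at hcon
      exact hb1 ((hg.gt hcon).trans (hg'.gt hcon).symm)
    exact hd (self_mem_cell _ _) (mem_cell.2 fun i hi => hb3 i (hb.trans hi))
  · have hb : b = h := by
      rcases lt_trichotomy b h with h1 | h1 | h1
      · exact absurd ((hb2 h h1).trans (hg'.gt hgt)) hg.1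
      · exact h1
      · exact absurd ((hg.gt h1).trans (hg'.gt (hgt.trans h1)).symm) hb1
    subst hb
    exact hd (mem_cell.2 fun i hi => (hb3 i hi).symm) (self_mem_cell _ _)

/-- the owner principle: a map from slots to alive killers which is constant on its cells gives
an independent set dominating all the other alive killers -/
theorem owner {w : Fin A → Gam F} {e : Enb F A I}
    (K : (Fin A → Bool) → Kil F A I) (hh : (Fin A → Bool) → Fin A)
    (h1 : ∀ τ, RoleAt w e (hh τ) (K τ)) (h2 : ∀ τ, ss (K τ) ∈ cell (hh τ) τ)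
    (h3 : ∀ τ τ', τ' ∈ cell (hh τ) τ → K τ' = K τ) :
    (∀ τ τ', ¬ (HG F A I).Adj (K τ) (K τ')) ∧
    ∀ h g, RoleAt w e h g → (∀ τ, K τ ≠ g) → ∃ τ, (HG F A I).Adj g (K τ) := by
  constructor
  · intro τ τ'
    by_cases hc : τ' ∈ cell (hh τ) τ
    · rw [h3 τ τ' hc]; exact (HG F A I).loopless.irrefl _
    by_cases hc' : τ ∈ cell (hh τ') τ'
    · rw [h3 τ' τ hc']; exact (HG F A I).loopless.irrefl _
    refine not_adj_of_disj (h1 τ) (h1 τ') ?_
    have e1 : ∀ ρ, ρ ∈ cell (hh τ) (ss (K τ)) → ρ ∈ cell (hh τ) τ := fun ρ hρ =>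
      mem_cell_trans (h2 τ) hρ
    have e2 : ∀ ρ, ρ ∈ cell (hh τ') (ss (K τ')) → ρ ∈ cell (hh τ') τ' := fun ρ hρ =>
      mem_cell_trans (h2 τ') hρ
    rw [Finset.disjoint_left]
    intro ρ hρ hρ'
    have a1 := e1 ρ hρ
    have a2 := e2 ρ hρ'
    rcases le_total (hh τ) (hh τ') with hle | hle
    · have := cell_disj_of_not_mem (h := hh τ') (h' := hh τ) hle hc'
      rw [Finset.disjoint_left] at this
      exact this a2 a1
    · have := cell_disj_of_not_mem (h := hh τ) (h' := hh τ') hle hc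
      rw [Finset.disjoint_left] at this
      exact this a1 a2
  · intro h g hg hne
    refine ⟨ss g, ?_⟩
    exact adj_of_common hg (h1 (ss g)) (hne (ss g)).symm (self_mem_cell _ _)
      (mem_cell_symm (h2 (ss g)))

end

end Pool.Agent.H26.KP
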